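import Pool.Agent.Lib_MP_53dcbc_em.Lin

/-!
# Groups with an elementary abelian subgroup of prime index: the dictionary
-/

set_option autoImplicit false

namespace Pool.Agent.PCPem

open Finset
open scoped commutatorElement

/-- The subgroup `A` of `G` is written as a vector space `V`. -/
structure Emb (p : ℕ) (V : Type*) {G : Type*} [AddCommGroup V] [Module (ZMod p) V] [Group G]
    (A : Subgroup G) where
  /-- the embedding -/
  ι : V → G
  add : ∀ v w, ι (v + w) = ι v * ι w
  inj : Function.Injective ι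
  mem : ∀ g, g ∈ A ↔ ∃ v, ι v = g

namespace Emb

variable {p : ℕ} {V G : Type*} [AddCommGroup V] [Module (ZMod p) V] [Group G] {A : Subgroup G}
  (E : Emb p V A)

include E

theorem zero : E.ι 0 = 1 := by
  have := E.add 0 0
  rw [add_zero] at this
  exact (mul_eq_left.1 this.symm)

theorem neg (v : V) : E.ι (-v) = (E.ι v)⁻¹ := by
  rw [eq_inv_iff_mul_eq_one, ← E.add, neg_add_cancel, E.zero]

theorem sub (v w : V) : E.ι (v - w) = E.ι v * (E.ι w)⁻¹ := by
  rw [sub_eq_add_neg, E.add, E.neg]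

theorem mem_A (v : V) : E.ι v ∈ A := (E.mem _).2 ⟨v, rfl⟩

theorem comm {a b : G} (ha : a ∈ A) (hb : b ∈ A) : a * b = b * a := by
  obtain ⟨v, rfl⟩ := (E.mem a).1 ha
  obtain ⟨w, rfl⟩ := (E.mem b).1 hb
  rw [← E.add, ← E.add, add_comm]

theorem eq_one {v : V} (h : E.ι v = 1) : v = 0 := E.inj (h.trans E.zero.symm)

/-- the subgroup of `G` given by a subspace of `V` -/
def gp (W : Submodule (ZMod p) V) : Subgroup G where
  carrier := E.ι '' W
  mul_mem' := by
    rintro _ _ ⟨v, hv, rfl⟩ ⟨w, hw, rfl⟩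
    exact ⟨v + w, W.add_mem hv hw, E.add v w⟩
  one_mem' := ⟨0, W.zero_mem, E.zero⟩
  inv_mem' := by
    rintro _ ⟨v, hv, rfl⟩
    exact ⟨-v, W.neg_mem hv, E.neg v⟩

theorem mem_gp {W : Submodule (ZMod p) V} {g : G} : g ∈ E.gp W ↔ ∃ v ∈ W, E.ι v = g := Iff.rfl

theorem ι_mem_gp {W : Submodule (ZMod p) V} {v : V} : E.ι v ∈ E.gp W ↔ v ∈ W := by
  constructor
  · rintro ⟨w, hw, h⟩
    rwa [← E.inj h]
  · intro h
    exact ⟨v, h, rfl⟩

theorem gp_le (W : Submodule (ZMod p) V) : E.gp W ≤ A := by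
  rintro _ ⟨v, _, rfl⟩
  exact E.mem_A v

theorem card_gp (W : Submodule (ZMod p) V) : Nat.card (E.gp W) = Nat.card W := by
  refine (Nat.card_congr (Equiv.ofBijective (fun w : W => (⟨E.ι w, w, w.2, rfl⟩ : E.gp W))
    ⟨?_, ?_⟩)).symm
  · intro a b h
    exact Subtype.ext (E.inj (congrArg Subtype.val h))
  · rintro ⟨_, v, hv, rfl⟩
    exact ⟨⟨v, hv⟩, rfl⟩

theorem card_A : Nat.card A = Nat.card V := by
  refine (Nat.card_congr (Equiv.ofBijective (fun v : V => (⟨E.ι v, E.mem_A v⟩ : A))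
    ⟨?_, ?_⟩)).symm
  · intro a b h
    exact E.inj (congrArg Subtype.val h)
  · rintro ⟨g, hg⟩
    obtain ⟨v, rfl⟩ := (E.mem g).1 hg
    exact ⟨v, rfl⟩

/-- the subspace of `V` given by a subgroup of `G` -/
def sm (H : Subgroup G) : Submodule (ZMod p) V :=
  AddSubgroup.toZModSubmodule p
    { carrier := {v | E.ι v ∈ H}
      add_mem' := by
        intro v w hv hw
        change E.ι (v + w) ∈ H
        rw [E.add]
        exact H.mul_mem hv hw
      zero_mem' := by
        change E.ι 0 ∈ H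
        rw [E.zero]
        exact H.one_mem
      neg_mem' := by
        intro v hv
        change E.ι (-v) ∈ H
        rw [E.neg]
        exact H.inv_mem hv }

theorem mem_sm {H : Subgroup G} {v : V} : v ∈ E.sm H ↔ E.ι v ∈ H := Iff.rfl

theorem gp_sm (H : Subgroup G) : E.gp (E.sm H) = H ⊓ A := by
  ext g
  rw [E.mem_gp, Subgroup.mem_inf]
  constructor
  · rintro ⟨v, hv, rfl⟩
    exact ⟨hv, E.mem_A v⟩
  · rintro ⟨h1, h2⟩
    obtain ⟨v, rfl⟩ := (E.mem g).1 h2
    exact ⟨v, h1, rfl⟩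

theorem gp_inf_eq_bot {W₁ W₂ : Submodule (ZMod p) V} (h : ∀ v, v ∈ W₁ → v ∈ W₂ → v = 0) :
    E.gp W₁ ⊓ E.gp W₂ = ⊥ := by
  rw [eq_bot_iff]
  rintro _ ⟨⟨v, hv, rfl⟩, hw⟩
  rw [Subgroup.mem_bot, h v hv (E.ι_mem_gp.1 hw), E.zero]

theorem gp_sup {W₁ W₂ : Submodule (ZMod p) V} (h : W₁ ⊔ W₂ = ⊤) : E.gp W₁ ⊔ E.gp W₂ = A := by
  refine le_antisymm (sup_le (E.gp_le _) (E.gp_le _)) ?_
  intro g hg
  obtain ⟨v, rfl⟩ := (E.mem g).1 hg
  have hv : v ∈ W₁ ⊔ W₂ := by rw [h]; trivial
  obtain ⟨a, ha, b, hb, rfl⟩ := Submodule.mem_sup.1 hv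
  rw [E.add]
  exact Subgroup.mul_mem_sup (E.ι_mem_gp.2 ha) (E.ι_mem_gp.2 hb)

omit E in
/-- A subgroup of `A` which is normalised by some `t` outside `A` is normal. -/
theorem normal_of_conj [Finite G] (E : Emb p V A) (hp : p.Prime) (hidx : A.index = p) {t : G}
    (ht : t ∉ A) {H : Subgroup G} (hH : H ≤ A) (hc : ∀ h ∈ H, t * h * t⁻¹ ∈ H) : H.Normal := by
  rw [← Subgroup.normalizer_eq_top_iff]
  have h1 : A ≤ Subgroup.normalizer (H : Set G) := by
    intro a ha
    rw [Subgroup.mem_normalizer_iff]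
    intro h
    constructor
    · intro hh
      rwa [E.comm ha (hH hh), mul_inv_cancel_right]
    · intro hh
      have h2 : h ∈ A := by
        have := A.mul_mem (A.mul_mem (A.inv_mem ha) (hH hh)) ha
        simpa [mul_assoc] using this
      rwa [E.comm ha h2, mul_inv_cancel_right] at hh
  have h2 : t ∈ Subgroup.normalizer (H : Set G) := by
    have hinj : Function.Injective (fun h : H => (⟨t * h * t⁻¹, hc h h.2⟩ : H)) := by
      intro a b hab
      have := congrArg Subtype.val hab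
      simpa using this
    have hsurj := Finite.surjective_of_injective hinj
    rw [Subgroup.mem_normalizer_iff]
    intro h
    constructor
    · intro hh
      exact hc h hh
    · intro hh
      obtain ⟨k, hk⟩ := hsurj ⟨_, hh⟩
      have := congrArg Subtype.val hk
      have hkh : (k : G) = h := by simpa using this
      rw [← hkh]
      exact k.2
  set Nz := Subgroup.normalizer (H : Set G)
  have h3 := Subgroup.relIndex_mul_index h1
  rw [hidx] at h3
  rcases (Nat.dvd_prime hp).1 (Dvd.intro_left _ h3) with h4 | h4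
  · exact Subgroup.index_eq_one.1 h4
  · exfalso
    rw [h4] at h3
    have h5 : A.relIndex Nz = 1 := by
      have := hp.pos
      exact Nat.eq_of_mul_eq_mul_right this (by rw [h3, one_mul])
    exact ht (Subgroup.relIndex_eq_one.1 h5 h2)

/-- the conjugation by `t` on `V` -/
theorem exists_T [hA : A.Normal] (t : G) :
    ∃ T : Module.End (ZMod p) V, ∀ v, E.ι (T v) = t * E.ι v * t⁻¹ := by
  have h : ∀ v, ∃ w, E.ι w = t * E.ι v * t⁻¹ := fun v =>
    (E.mem _).1 (hA.conj_mem _ (E.mem_A v) t)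
  choose f hf using h
  let F : V →+ V := AddMonoidHom.mk' f (by
    intro a b
    apply E.inj
    rw [hf, E.add, E.add, hf, hf]
    group)
  exact ⟨F.toZModLinearMap p, hf⟩

variable {t : G} {T : Module.End (ZMod p) V} (hT : ∀ v, E.ι (T v) = t * E.ι v * t⁻¹)

include hT

theorem comm_t (v : V) : ⁅t, E.ι v⁆ = E.ι ((T - 1) v) := by
  rw [LinearMap.sub_apply, Module.End.one_apply, E.sub, hT, commutatorElement_def]

theorem iter_comm (k : ℕ) (v : V) : (fun g => ⁅t, g⁆)^[k] (E.ι v) = E.ι (((T - 1) ^ k) v) := by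
  induction k generalizing v with
  | zero => simp
  | succ k ih =>
    rw [Function.iterate_succ_apply, E.comm_t hT, ih, pow_succ, Module.End.mul_apply]

theorem conj_gp {W : Submodule (ZMod p) V} (hW : ∀ v ∈ W, (T - 1) v ∈ W) :
    ∀ h ∈ E.gp W, t * h * t⁻¹ ∈ E.gp W := by
  rintro _ ⟨v, hv, rfl⟩
  rw [← hT, E.ι_mem_gp]
  have := W.add_mem (hW v hv) hv
  rwa [LinearMap.sub_apply, Module.End.one_apply, sub_add_cancel] at this

theorem mul_t_pow (v : V) (k : ℕ) : (E.ι v * t) ^ k = E.ι ((∑ i ∈ range k, T ^ i) v) * t ^ k := by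
  induction k with
  | zero => simp [E.zero]
  | succ k ih =>
    rw [pow_succ', ih, sum_range_succ', pow_zero, LinearMap.add_apply, Module.End.one_apply]
    have h1 : (∑ i ∈ range k, T ^ (i + 1)) v = T ((∑ i ∈ range k, T ^ i) v) := by
      rw [← Module.End.mul_apply, Finset.mul_sum]
      simp only [pow_succ']
    rw [h1, add_comm, E.add, hT, pow_succ']
    group

omit E hT in
theorem geom_eq [Fact p.Prime] (T : Module.End (ZMod p) V) :
    ∑ i ∈ range p, T ^ i = (T - 1) ^ (p - 1) := by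
  have hp : p.Prime := Fact.out
  have h : (∑ i ∈ range p, (Polynomial.X : Polynomial (ZMod p)) ^ i) =
      (Polynomial.X - 1) ^ (p - 1) := by
    have h1 : (∑ i ∈ range p, (Polynomial.X : Polynomial (ZMod p)) ^ i) * (Polynomial.X - 1) =
        (Polynomial.X - 1) ^ (p - 1) * (Polynomial.X - 1) := by
      rw [geom_sum_mul, ← pow_succ, Nat.sub_add_cancel hp.pos, sub_pow_char, one_pow]
    refine mul_right_cancel₀ ?_ h1
    rw [← Polynomial.C_1]
    exact Polynomial.X_sub_C_ne_zero 1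
  have h2 := congrArg (Polynomial.aeval T) h
  simpa using h2

omit E hT in
theorem sub_pow_eq [Fact p.Prime] (T : Module.End (ZMod p) V) :
    (T - 1) ^ p = T ^ p - 1 := by
  have h : ((Polynomial.X : Polynomial (ZMod p)) - 1) ^ p = Polynomial.X ^ p - 1 := by
    rw [sub_pow_char, one_pow]
  have h2 := congrArg (Polynomial.aeval T) h
  simpa using h2

theorem T_pow (k : ℕ) (v : V) : E.ι ((T ^ k) v) = t ^ k * E.ι v * (t ^ k)⁻¹ := by
  induction k generalizing v with
  | zero => simp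
  | succ k ih =>
    rw [pow_succ', Module.End.mul_apply, hT, ih, pow_succ']
    group

theorem x_pow_p [Fact p.Prime] (htp : t ^ p ∈ A) : (T - 1) ^ p = 0 := by
  rw [sub_pow_eq]
  ext v
  rw [LinearMap.sub_apply, Module.End.one_apply, LinearMap.zero_apply, sub_eq_zero]
  apply E.inj
  rw [E.T_pow hT, E.comm htp (E.mem_A v), mul_inv_cancel_right]

theorem mul_t_pow_p [Fact p.Prime] (v : V) :
    (E.ι v * t) ^ p = E.ι (((T - 1) ^ (p - 1)) v) * t ^ p := by
  rw [E.mul_t_pow hT, geom_eq]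

end Emb

/-- The subgroup generated by a normal subgroup `H` of `A` and some `t` outside `A`. -/
theorem sup_zpowers {G : Type*} [Group G] [Finite G] {A H : Subgroup G} [A.Normal] [H.Normal]
    {p : ℕ} (hp : p.Prime) (hidx : A.index = p) (hHA : H ≤ A) {t : G} (ht : t ∉ A)
    (htp : t ^ p ∈ H) :
    (H ⊔ Subgroup.zpowers t) ⊓ A = H ∧ Nat.card (H ⊔ Subgroup.zpowers t : Subgroup G) =
      p * Nat.card H := by
  have hU : (H ⊔ Subgroup.zpowers t) ⊓ A = H := by
    refine le_antisymm ?_ (le_inf le_sup_left hHA)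
    rintro g ⟨h1, h2⟩
    have h3 : g ∈ ((H ⊔ Subgroup.zpowers t : Subgroup G) : Set G) := h1
    rw [Subgroup.normal_mul] at h3
    obtain ⟨h, hh, y, ⟨k, rfl⟩, rfl⟩ := h3
    change h * t ^ k ∈ H
    have h4 : t ^ k ∈ A := by
      have h2' : h * t ^ k ∈ A := h2
      exact (A.mul_mem_cancel_left (hHA hh)).1 h2'
    have h5 : orderOf (t : G ⧸ A) = p := by
      have := Fact.mk hp
      refine orderOf_eq_prime ?_ ?_
      · rw [← QuotientGroup.mk_pow]
        exact (QuotientGroup.eq_one_iff _).2 (hHA htp)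
      · intro h
        exact ht ((QuotientGroup.eq_one_iff _).1 h)
    have h6 : (p : ℤ) ∣ k := by
      rw [← h5, orderOf_dvd_iff_zpow_eq_one, ← QuotientGroup.mk_zpow]
      exact (QuotientGroup.eq_one_iff _).2 h4
    obtain ⟨m, rfl⟩ := h6
    refine H.mul_mem hh ?_
    rw [zpow_mul, zpow_natCast]
    exact H.zpow_mem htp m
  refine ⟨hU, ?_⟩
  have h1 := Subgroup.card_mul_index (A.subgroupOf (H ⊔ Subgroup.zpowers t))
  have h2 : Nat.card (A.subgroupOf (H ⊔ Subgroup.zpowers t)) = Nat.card H := by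
    rw [← Subgroup.inf_subgroupOf_left, Nat.card_congr (Subgroup.subgroupOfEquivOfLe
      inf_le_left).toEquiv, hU]
  have h3 : (A.subgroupOf (H ⊔ Subgroup.zpowers t)).index = p := by
    have h4 : A.relIndex (H ⊔ Subgroup.zpowers t) ∣ A.index := Subgroup.relIndex_dvd_index_of_normal
      A _
    rw [hidx] at h4
    rcases (Nat.dvd_prime hp).1 h4 with h5 | h5
    · exfalso
      exact ht (Subgroup.relIndex_eq_one.1 h5 ((le_sup_right : Subgroup.zpowers t ≤ _)
        (Subgroup.mem_zpowers t)))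
    · exact h5
  rw [h2, h3] at h1
  rw [← h1, mul_comm]

end Pool.Agent.PCPem
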