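import Pool.Agent.Lib_MP_53dcbc_em.Hall

/-!
# Products of subgroups and the lifting of three subgroups from a quotient
-/

set_option autoImplicit false

namespace Pool.Agent.PCPem

open Subgroup

universe u

section Prod

variable {G : Type u} [Group G]

/-- the product of a subgroup with another one which normalises it -/
def prodSub (X Y : Subgroup G) (h : ∀ y ∈ Y, ∀ x ∈ X, y * x * y⁻¹ ∈ X) : Subgroup G where
  carrier := {g | ∃ x ∈ X, ∃ y ∈ Y, x * y = g}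
  mul_mem' := by
    rintro _ _ ⟨x, hx, y, hy, rfl⟩ ⟨x', hx', y', hy', rfl⟩
    refine ⟨x * (y * x' * y⁻¹), X.mul_mem hx (h y hy x' hx'), y * y', Y.mul_mem hy hy', ?_⟩
    group
  one_mem' := ⟨1, X.one_mem, 1, Y.one_mem, mul_one 1⟩
  inv_mem' := by
    rintro _ ⟨x, hx, y, hy, rfl⟩
    refine ⟨y⁻¹ * x⁻¹ * y⁻¹⁻¹, h _ (Y.inv_mem hy) _ (X.inv_mem hx), y⁻¹, Y.inv_mem hy, ?_⟩
    group

variable {X Y X' Y' K H : Subgroup G} {h : ∀ y ∈ Y, ∀ x ∈ X, y * x * y⁻¹ ∈ X}
  {h' : ∀ y ∈ Y', ∀ x ∈ X', y * x * y⁻¹ ∈ X'}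

theorem card_prodSub (hXY : X ⊓ Y = ⊥) :
    Nat.card (prodSub X Y h) = Nat.card X * Nat.card Y := by
  rw [← Nat.card_prod]
  refine (Nat.card_congr (Equiv.ofBijective
    (fun a : X × Y => (⟨a.1 * a.2, a.1, a.1.2, a.2, a.2.2, rfl⟩ : prodSub X Y h)) ⟨?_, ?_⟩)).symm
  · intro a b hab
    exact Subgroup.mul_injective_of_disjoint (disjoint_iff.2 hXY) (congrArg Subtype.val hab)
  · rintro ⟨_, x, hx, y, hy, rfl⟩
    exact ⟨⟨⟨x, hx⟩, ⟨y, hy⟩⟩, rfl⟩

theorem prodSub_inf (hX : X ≤ K) (hX' : X' ≤ K) (hY : Y ≤ H) (hY' : Y' ≤ H) (hKH : K ⊓ H = ⊥)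
    (hXX : X ⊓ X' = ⊥) (hYY : Y ⊓ Y' = ⊥) : prodSub X Y h ⊓ prodSub X' Y' h' = ⊥ := by
  rw [eq_bot_iff]
  rintro _ ⟨⟨x, hx, y, hy, rfl⟩, ⟨x', hx', y', hy', he⟩⟩
  have h1 := Subgroup.mul_injective_of_disjoint (disjoint_iff.2 hKH)
    (a₁ := ⟨⟨x', hX' hx'⟩, ⟨y', hY' hy'⟩⟩) (a₂ := ⟨⟨x, hX hx⟩, ⟨y, hY hy⟩⟩) he
  have h2 : x' = x := congrArg Subtype.val (congrArg Prod.fst h1)
  have h3 : y' = y := congrArg Subtype.val (congrArg Prod.snd h1)
  subst h2 h3
  have h4 : x' ∈ X ⊓ X' := ⟨hx, hx'⟩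
  have h5 : y' ∈ Y ⊓ Y' := ⟨hy, hy'⟩
  rw [hXX, mem_bot] at h4
  rw [hYY, mem_bot] at h5
  rw [mem_bot, h4, h5, mul_one]

theorem prodSub_normal (hX : X.Normal) (hY : Y.Normal) : (prodSub X Y h).Normal := by
  refine ⟨?_⟩
  rintro _ ⟨x, hx, y, hy, rfl⟩ g
  refine ⟨_, hX.conj_mem x hx g, _, hY.conj_mem y hy g, ?_⟩
  group

theorem prodSub_le {A : Subgroup G} (hX : X ≤ A) (hY : Y ≤ A) : prodSub X Y h ≤ A := by
  rintro _ ⟨x, hx, y, hy, rfl⟩
  exact A.mul_mem (hX hx) (hY hy)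

theorem left_mem {x : G} (hx : x ∈ X) : x ∈ prodSub X Y h := ⟨x, hx, 1, Y.one_mem, mul_one x⟩

theorem right_mem {y : G} (hy : y ∈ Y) : y ∈ prodSub X Y h := ⟨1, X.one_mem, y, hy, one_mul y⟩

/-- embeddings of the factors give an embedding of the product -/
theorem prodSub_embed {A : Subgroup G} (hcomm : ∀ x ∈ A, ∀ y ∈ A, x * y = y * x) (hX : X ≤ A)
    (hY : Y ≤ A) (hX' : X' ≤ A) (hY' : Y' ≤ A) (hXY : X ⊓ Y = ⊥) (hXY' : X' ⊓ Y' = ⊥)
    (α : X →* X') (hα : Function.Injective α) (β : Y →* Y') (hβ : Function.Injective β) :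
    ∃ φ : prodSub X Y h →* prodSub X' Y' h', Function.Injective φ := by
  let F : X × Y →* prodSub X Y h :=
    { toFun := fun a => ⟨a.1 * a.2, a.1, a.1.2, a.2, a.2.2, rfl⟩
      map_one' := Subtype.ext (mul_one 1)
      map_mul' := by
        rintro ⟨a, b⟩ ⟨c, d⟩
        apply Subtype.ext
        change (a : G) * c * (b * d) = a * b * (c * d)
        rw [mul_assoc, mul_assoc, ← mul_assoc (c : G), hcomm c (hX c.2) b (hY b.2), mul_assoc] }
  let F' : X' × Y' →* prodSub X' Y' h' :=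
    { toFun := fun a => ⟨a.1 * a.2, a.1, a.1.2, a.2, a.2.2, rfl⟩
      map_one' := Subtype.ext (mul_one 1)
      map_mul' := by
        rintro ⟨a, b⟩ ⟨c, d⟩
        apply Subtype.ext
        change (a : G) * c * (b * d) = a * b * (c * d)
        rw [mul_assoc, mul_assoc, ← mul_assoc (c : G), hcomm c (hX' c.2) b (hY' b.2), mul_assoc] }
  have hF : Function.Bijective F := by
    constructor
    · intro a b hab
      exact Subgroup.mul_injective_of_disjoint (disjoint_iff.2 hXY) (congrArg Subtype.val hab)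
    · rintro ⟨_, x, hx, y, hy, rfl⟩
      exact ⟨⟨⟨x, hx⟩, ⟨y, hy⟩⟩, rfl⟩
  have hF' : Function.Injective F' := by
    intro a b hab
    exact Subgroup.mul_injective_of_disjoint (disjoint_iff.2 hXY') (congrArg Subtype.val hab)
  let e := MulEquiv.ofBijective F hF
  refine ⟨F'.comp ((α.prodMap β).comp e.symm.toMonoidHom), ?_⟩
  have h1 : Function.Injective (α.prodMap β) := by
    rintro ⟨a, b⟩ ⟨c, d⟩ hab
    have h2 : α a = α c := congrArg Prod.fst hab
    have h3 : β b = β d := congrArg Prod.snd hab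
    rw [hα h2, hβ h3]
  exact hF'.comp (h1.comp e.symm.injective)

end Prod

/-- The lifting of three subgroups from the quotient by a normal Hall subgroup. -/
theorem lift_pcp {G : Type u} [Group G] [Finite G] (K : Subgroup G) [K.Normal]
    (hcop : Nat.Coprime (Nat.card K) K.index) {t v : ℕ} (Ub : Fin 3 → Subgroup (G ⧸ K))
    (hUb : ∀ i, Nat.card (Ub i) = v) (hUb2 : ∀ i j, i ≠ j → Ub i ⊓ Ub j = ⊥)
    (X : Fin 3 → Subgroup G) (hX : ∀ i, Nat.card (X i) = t) (hXK : ∀ i, X i ≤ K)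
    (hX2 : ∀ i j, i ≠ j → X i ⊓ X j = ⊥)
    (hn : ∀ i, ∀ y, QuotientGroup.mk' K y ∈ Ub i → ∀ x ∈ X i, y * x * y⁻¹ ∈ X i) :
    ∃ U : Fin 3 → Subgroup G, (∀ i, Nat.card (U i) = t * v) ∧ ∀ i j, i ≠ j → U i ⊓ U j = ⊥ := by
  obtain ⟨H, hH⟩ := exists_right_complement'_of_coprime hcop
  have hKH : K ⊓ H = ⊥ := disjoint_iff.1 hH.disjoint
  let Y : Fin 3 → Subgroup G := fun i => H ⊓ (Ub i).comap (QuotientGroup.mk' K)
  have hY : ∀ i, Nat.card (Y i) = v := by
    intro i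
    have h1 := Pool.Agent.Lib_MP_53dcbc_mc.card_map_mul_card_inf K (Y i)
    have h2 : Y i ⊓ K = ⊥ := by
      rw [eq_bot_iff, ← hKH]
      exact fun x hx => ⟨hx.2, hx.1.1⟩
    have h3 : (Y i).map (QuotientGroup.mk' K) = Ub i := by
      ext z
      constructor
      · rintro ⟨y, hy, rfl⟩
        exact hy.2
      · intro hz
        obtain ⟨g, rfl⟩ := QuotientGroup.mk'_surjective K z
        obtain ⟨⟨k, h⟩, hkh⟩ := hH.2 g
        have h4 : (k : G) * h = g := hkh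
        have h5 : QuotientGroup.mk' K h = QuotientGroup.mk' K g := by
          rw [← h4, map_mul]
          have : QuotientGroup.mk' K (k : G) = 1 := (QuotientGroup.eq_one_iff _).2 k.2
          rw [this, one_mul]
        refine ⟨h, ⟨h.2, ?_⟩, h5⟩
        rw [← h5] at hz
        exact hz
    rw [h2, h3, card_bot, mul_one, hUb] at h1
    exact h1.symm
  have hYH : ∀ i, Y i ≤ H := fun i => inf_le_left
  have hYY : ∀ i j, i ≠ j → Y i ⊓ Y j = ⊥ := by
    intro i j hij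
    rw [eq_bot_iff]
    rintro y ⟨h1, h2⟩
    have h3 : QuotientGroup.mk' K y ∈ Ub i ⊓ Ub j := ⟨h1.2, h2.2⟩
    rw [hUb2 i j hij, mem_bot] at h3
    rw [← hKH]
    exact ⟨(QuotientGroup.eq_one_iff _).1 h3, h1.1⟩
  refine ⟨fun i => prodSub (X i) (Y i) (fun y hy => hn i y hy.2), ?_, ?_⟩
  · intro i
    rw [card_prodSub, hX, hY]
    rw [eq_bot_iff, ← hKH]
    exact fun x hx => ⟨hXK i hx.1, hYH i hx.2⟩
  · intro i j hij
    exact prodSub_inf (hXK i) (hXK j) (hYH i) (hYH j) hKH (hX2 i j hij) (hYY i j hij)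

/-- Elementary abelian groups embed into larger ones. -/
theorem embed_of_exp {q : ℕ} (hq : q.Prime) {X Y : Type u} [CommGroup X] [CommGroup Y] [Finite X]
    [Finite Y] (hX : ∀ x : X, x ^ q = 1) (hY : ∀ y : Y, y ^ q = 1)
    (hc : Nat.card X ≤ Nat.card Y) : ∃ f : X →* Y, Function.Injective f := by
  have := Fact.mk hq
  let _i1 : Module (ZMod q) (Additive X) := AddCommGroup.zmodModule (n := q) (fun x => hX x.toMul)
  let _i2 : Module (ZMod q) (Additive Y) := AddCommGroup.zmodModule (n := q) (fun x => hY x.toMul)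
  have hfX : Finite (Additive X) := inferInstanceAs (Finite X)
  have hfY : Finite (Additive Y) := inferInstanceAs (Finite Y)
  have h1 : Nat.card (Additive X) = q ^ Module.finrank (ZMod q) (Additive X) := by
    have := Module.natCard_eq_pow_finrank (K := ZMod q) (V := Additive X)
    rwa [Nat.card_zmod] at this
  have h2 : Nat.card (Additive Y) = q ^ Module.finrank (ZMod q) (Additive Y) := by
    have := Module.natCard_eq_pow_finrank (K := ZMod q) (V := Additive Y)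
    rwa [Nat.card_zmod] at this
  have h3 : Module.finrank (ZMod q) (Additive X) ≤ Module.finrank (ZMod q) (Additive Y) := by
    have h4 : Nat.card (Additive X) ≤ Nat.card (Additive Y) := hc
    rw [h1, h2] at h4
    exact (Nat.pow_le_pow_iff_right hq.one_lt).1 h4
  obtain ⟨f, hf⟩ := finrank_le_iff_exists_linearMap.1 h3
  exact ⟨MonoidHom.toAdditive.symm f.toAddMonoidHom, hf⟩

end Pool.Agent.PCPem
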