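import Pool.Agent.Lib_MP_53dcbc_em.Suff2
import Pool.Agent.Lib_MP_53dcbc_em.Lift

/-!
# Groups with an abelian normal subgroup of prime index: the condition is sufficient
-/

set_option autoImplicit false

namespace Pool.Agent.PCPem

open Subgroup
open scoped commutatorElement

universe u

/-- The elementary abelian subgroup as a vector space over the field with `p` elements. -/
theorem exists_emb (p : ℕ) (hp : p.Prime) (G : Type u) [Group G] (A : Subgroup G)
    (hcomm : ∀ x ∈ A, ∀ y ∈ A, x * y = y * x) (hexp : ∀ x ∈ A, x ^ p = 1) :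
    ∃ (V : Type u) (_ : AddCommGroup V) (_ : Module (ZMod p) V), Nonempty (Emb p V A) := by
  have hne : NeZero p := ⟨hp.ne_zero⟩
  let _i1 : CommGroup A :=
    { (inferInstance : Group A) with
      mul_comm := fun a b => Subtype.ext (hcomm a a.2 b b.2) }
  let _i2 : Module (ZMod p) (Additive A) := AddCommGroup.zmodModule (n := p) (fun x => by
    have h : (x.toMul : A) ^ p = 1 := Subtype.ext (hexp _ (x.toMul : A).2)
    exact h)
  refine ⟨Additive A, inferInstance, inferInstance, ⟨?_⟩⟩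
  exact
    { ι := fun v => ((v.toMul : A) : G)
      add := fun _ _ => rfl
      inj := fun _ _ h => Subtype.ext h
      mem := fun g => ⟨fun h => ⟨Additive.ofMul ⟨g, h⟩, rfl⟩, by
        rintro ⟨v, rfl⟩
        exact (v.toMul : A).2⟩ }

theorem iter_map {G G' : Type*} [Group G] [Group G'] (f : G →* G') (t : G) (k : ℕ) (y : G) :
    f ((fun y => ⁅t, y⁆)^[k] y) = (fun y => ⁅f t, y⁆)^[k] (f y) := by
  induction k generalizing y with
  | zero => rfl
  | succ k ih => rw [Function.iterate_succ_apply, Function.iterate_succ_apply, ih,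
      map_commutatorElement]

theorem iter_mem {G : Type*} [Group G] {H : Subgroup G} (hH : H.Normal) (t : G) (k : ℕ) {y : G}
    (hy : y ∈ H) : (fun y => ⁅t, y⁆)^[k] y ∈ H := by
  induction k generalizing y with
  | zero => exact hy
  | succ k ih =>
    rw [Function.iterate_succ_apply]
    apply ih
    rw [commutatorElement_def]
    exact H.mul_mem (hH.conj_mem y hy t) (H.inv_mem hy)

section Quot

variable {G : Type u} [Group G] {A : Subgroup G} (K : Subgroup G) [K.Normal]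

theorem mk_mem_map_iff (hKA : K ≤ A) (x : G) :
    QuotientGroup.mk' K x ∈ A.map (QuotientGroup.mk' K) ↔ x ∈ A := by
  constructor
  · rintro ⟨a, ha, hax⟩
    have h1 : a⁻¹ * x ∈ K := QuotientGroup.eq.1 hax
    have := A.mul_mem ha (hKA h1)
    rwa [mul_inv_cancel_left] at this
  · exact fun h => ⟨x, h, rfl⟩

theorem quot_index (hKA : K ≤ A) : (A.map (QuotientGroup.mk' K)).index = A.index :=
  Subgroup.index_map_eq A (QuotientGroup.mk'_surjective K) (by rwa [QuotientGroup.ker_mk'])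

theorem quot_comm (hcomm : ∀ x ∈ A, ∀ y ∈ A, x * y = y * x) :
    ∀ x ∈ A.map (QuotientGroup.mk' K), ∀ y ∈ A.map (QuotientGroup.mk' K), x * y = y * x := by
  rintro _ ⟨x, hx, rfl⟩ _ ⟨y, hy, rfl⟩
  rw [← map_mul, hcomm x hx y hy, map_mul]

end Quot

/-- the orders of the images -/
theorem card_image {G : Type u} [Group G] [Finite G] {K M : Subgroup G} [K.Normal]
    {t v a : ℕ} (hK : Nat.card K = t ^ 2) (hQ : Nat.card (G ⧸ K) = v ^ 2)
    (hcop : Nat.Coprime t v) (ha : Nat.Coprime a t) (hM : Nat.card M * a = t * v) :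
    Nat.card (M.map (QuotientGroup.mk' K)) * a = v ∧ Nat.card (M ⊓ K : Subgroup G) = t := by
  have h1 := Pool.Agent.Lib_MP_53dcbc_mc.card_map_mul_card_inf K M
  have h2 : Nat.card (M.map (QuotientGroup.mk' K)) ∣ v ^ 2 := by
    rw [← hQ]
    exact card_subgroup_dvd_card _
  have h3 : Nat.card (M ⊓ K : Subgroup G) ∣ t ^ 2 := by
    rw [← hK]
    exact card_dvd_of_le inf_le_right
  apply split_mul (d := t)
  · rw [← mul_comm t, ← hM, ← h1]
    ring
  · refine Nat.Coprime.mul_left ?_ ha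
    exact Nat.Coprime.coprime_dvd_left h2 (Nat.Coprime.pow_left 2 hcop.symm)
  · exact (Nat.Coprime.coprime_dvd_left h3 (Nat.Coprime.pow_left 2 hcop)).symm

theorem general_suff {q s : ℕ} (hq : q.Prime) (G : Type u) [Group G] [Finite G]
    (hG : Nat.card G = s ^ 2) (A : Subgroup G) [A.Normal] (hidx : A.index = q)
    (hcomm : ∀ x ∈ A, ∀ y ∈ A, x * y = y * x) (hexp : ∀ x ∈ A, x ^ (q ^ 2) = 1 → x ^ q = 1)
    (M N : Subgroup G) (hM : M.Normal) (hN : N.Normal) (hMN : M ⊓ N = ⊥) (hsup : M ⊔ N = A)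
    (hcM : Nat.card M * q = s) (hcN : Nat.card N = s) (φ : M →* N) (hφ : Function.Injective φ)
    (t : G) (ht : t ∉ A) (hcase : t ^ q = 1 ∨
      ((∃ m ∈ M, m ^ q = 1 ∧ t ^ q = (fun y => ⁅t, y⁆)^[q - 2] m) ∧
        ∃ n ∈ N, n ^ q = 1 ∧ (fun y => ⁅t, y⁆)^[q - 1] n ≠ 1)) :
    ∃ U : Fin 3 → Subgroup G, (∀ i, Nat.card (U i) = s) ∧ ∀ i j, i ≠ j → U i ⊓ U j = ⊥ := by
  have hfq := Fact.mk hq
  obtain ⟨t₀, v, b, ht0, hv0, hK, hst, hvb, hcop⟩ := exists_tu hcomm hq hG hidx hexp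
  have hMA : M ≤ A := hsup ▸ le_sup_left
  have hNA : N ≤ A := hsup ▸ le_sup_right
  have hKA := pw_le hcomm (q := q)
  have hKn : (pw A hcomm q).Normal := pw_normal hcomm
  have hSn : (tor A hcomm q).Normal := tor_normal hcomm
  have hSK := tor_inf_pw hcomm hexp
  have hmemK : ∀ x ∈ A, (x ∈ pw A hcomm q ↔ x ^ Nat.card (pw A hcomm q) = 1) :=
    fun x hx => mem_pw_iff hcomm hq hexp hx
  have hcqK := coprime_card_pw hcomm hq hexp
  have hpw : ∀ a ∈ A, a ^ q ∈ pw A hcomm q := fun a ha => ⟨a, ha, rfl⟩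
  have htor : ∀ a ∈ A, a ^ q = 1 → a ∈ tor A hcomm q := fun a ha h => ⟨ha, h⟩
  generalize hKdef : pw A hcomm q = K at *
  have hQ := Pool.Agent.Lib_MP_53dcbc_mc.card_quot' ht0 hst hG hK
  have hcq : Nat.Coprime q t₀ := by
    rw [hK] at hcqK
    exact Nat.Coprime.coprime_dvd_right (Dvd.intro_left _ (pow_two t₀).symm) hcqK
  obtain ⟨hM1, hM2⟩ := card_image (M := M) hK hQ hcop hcq (by rw [hcM, hst])
  obtain ⟨hN1, hN2⟩ := card_image (M := N) (a := 1) hK hQ hcop (Nat.coprime_one_left t₀)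
    (by rw [hcN, hst, mul_one])
  rw [mul_one] at hN1
  -- the quotient
  have hAn : (A.map (QuotientGroup.mk' K)).Normal :=
    Subgroup.Normal.map inferInstance _ (QuotientGroup.mk'_surjective K)
  have hMn : (M.map (QuotientGroup.mk' K)).Normal :=
    Subgroup.Normal.map hM _ (QuotientGroup.mk'_surjective K)
  have hNn : (N.map (QuotientGroup.mk' K)).Normal :=
    Subgroup.Normal.map hN _ (QuotientGroup.mk'_surjective K)
  obtain ⟨V, iV, mV, ⟨E⟩⟩ := exists_emb q hq (G ⧸ K) (A.map (QuotientGroup.mk' K))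
    (quot_comm K hcomm) (by
      rintro _ ⟨a, ha, rfl⟩
      rw [← map_pow]
      exact (QuotientGroup.eq_one_iff _).2 (hpw a ha))
  have hMNb : M.map (QuotientGroup.mk' K) ⊓ N.map (QuotientGroup.mk' K) = ⊥ := by
    rw [eq_bot_iff]
    rintro _ ⟨⟨m, hm, rfl⟩, ⟨n, hn, hmn⟩⟩
    have h1 : n⁻¹ * m ∈ K := QuotientGroup.eq.1 hmn
    have h2 : m = n * (n⁻¹ * m) := (mul_inv_cancel_left n m).symm
    have h3 : m ^ Nat.card K = n ^ Nat.card K := by
      nth_rewrite 1 [h2]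
      rw [(show Commute n (n⁻¹ * m) from hcomm n (hNA hn) _ (hKA h1)).mul_pow,
        (hmemK _ (hKA h1)).1 h1, mul_one]
    have h4 : m ^ Nat.card K ∈ M ⊓ N := ⟨M.pow_mem hm _, h3 ▸ N.pow_mem hn _⟩
    rw [hMN, mem_bot] at h4
    rw [mem_bot]
    exact (QuotientGroup.eq_one_iff _).2 ((hmemK m (hMA hm)).2 h4)
  obtain ⟨Ub, hUb1, hUb2, hUb3⟩ := sufficient E ((quot_index K hKA).trans hidx) hQ
    (M.map (QuotientGroup.mk' K)) (N.map (QuotientGroup.mk' K)) hMn hNn hMNb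
    (by rw [← Subgroup.map_sup, hsup]) hM1 hN1 (t := QuotientGroup.mk' K t)
    (by rwa [mk_mem_map_iff K hKA]) (by
      rcases hcase with h | ⟨⟨m, hm, hmq, hm'⟩, n, hn, hnq, hn'⟩
      · left
        rw [← map_pow, h, map_one]
      · right
        refine ⟨⟨_, ⟨m, hm, rfl⟩, ?_⟩, _, ⟨n, hn, rfl⟩, ?_⟩
        · rw [← map_pow, hm', iter_map]
        · rw [← iter_map]
          intro h
          apply hn'
          have h1 : (fun y => ⁅t, y⁆)^[q - 1] n ∈ tor A hcomm q ⊓ K :=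
            ⟨iter_mem hSn t _ (htor n (hNA hn) hnq), (QuotientGroup.eq_one_iff _).1 h⟩
          rwa [hSK, mem_bot] at h1)
  -- the third part
  have hφK : ∀ x : M, (x : G) ∈ K → (φ x : G) ∈ K := by
    intro x hx
    rw [hmemK _ (hNA (φ x).2)]
    have h1 : x ^ Nat.card K = 1 := Subtype.ext ((hmemK _ (hMA x.2)).1 hx)
    have h2 : φ x ^ Nat.card K = 1 := by rw [← map_pow, h1, map_one]
    exact congrArg Subtype.val h2
  let θ : (M ⊓ K : Subgroup G) →* G :=
    { toFun := fun x => x * φ ⟨x, x.2.1⟩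
      map_one' := by
        have : φ ⟨((1 : (M ⊓ K : Subgroup G)) : G), (1 : (M ⊓ K : Subgroup G)).2.1⟩ = 1 :=
          map_one φ
        rw [this]
        exact mul_one 1
      map_mul' := by
        intro x y
        have h1 : φ ⟨((x * y : (M ⊓ K : Subgroup G)) : G), (x * y).2.1⟩ =
          φ ⟨x, x.2.1⟩ * φ ⟨y, y.2.1⟩ := by
          rw [← map_mul]
          rfl
        rw [h1]
        change (x : G) * y * (φ ⟨x, x.2.1⟩ * φ ⟨y, y.2.1⟩) = x * φ ⟨x, x.2.1⟩ * (y * φ ⟨y, y.2.1⟩)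
        rw [mul_assoc, mul_assoc, ← mul_assoc (y : G), hcomm y (hMA y.2.1) _
          (hNA (φ ⟨x, x.2.1⟩).2), mul_assoc] }
  have hθ1 : ∀ x, θ x ∈ M → θ x = 1 := by
    intro x hx
    have h1 : (φ ⟨x, x.2.1⟩ : G) ∈ M ⊓ N := by
      refine ⟨?_, (φ ⟨x, x.2.1⟩).2⟩
      exact (M.mul_mem_cancel_left x.2.1).1 hx
    rw [hMN, mem_bot] at h1
    have h2 : φ ⟨x, x.2.1⟩ = 1 := Subtype.ext h1
    have h3 : (⟨x, x.2.1⟩ : M) = 1 := hφ (h2.trans (map_one φ).symm)
    have h3' : ((⟨x, x.2.1⟩ : M) : G) = ((1 : M) : G) := congrArg Subtype.val h3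
    have h4 : x = 1 := Subtype.ext h3'
    rw [h4, map_one]
  have hθ2 : ∀ x, θ x ∈ N → x = 1 := by
    intro x hx
    have h1 : (x : G) ∈ M ⊓ N := by
      refine ⟨x.2.1, ?_⟩
      exact (N.mul_mem_cancel_right (φ ⟨x, x.2.1⟩).2).1 hx
    rw [hMN, mem_bot] at h1
    exact Subtype.ext h1
  have hθ : Function.Injective θ := by
    rw [injective_iff_map_eq_one]
    intro x hx
    exact hθ2 x (hx ▸ N.one_mem)
  have hDK : θ.range ≤ K := by
    rintro _ ⟨x, rfl⟩
    exact K.mul_mem x.2.2 (hφK ⟨x, x.2.1⟩ x.2.2)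
  have hDc : Nat.card θ.range = t₀ := by
    rw [← hM2]
    exact (Nat.card_congr (MonoidHom.ofInjective hθ).toEquiv).symm
  have hcop2 : Nat.Coprime (Nat.card K) K.index := by
    have h1 : K.index = v ^ 2 := hQ
    rw [hK, h1]
    exact Nat.Coprime.pow 2 2 hcop
  have h01 : (M ⊓ K) ⊓ (N ⊓ K) = ⊥ := by
    rw [eq_bot_iff, ← hMN]
    exact fun x hx => ⟨hx.1.1, hx.2.1⟩
  have h02 : (M ⊓ K) ⊓ θ.range = ⊥ := by
    rw [eq_bot_iff]
    rintro _ ⟨h1, ⟨x, rfl⟩⟩
    rw [mem_bot]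
    exact hθ1 x h1.1
  have h12 : (N ⊓ K) ⊓ θ.range = ⊥ := by
    rw [eq_bot_iff]
    rintro _ ⟨h1, ⟨x, rfl⟩⟩
    rw [mem_bot, hθ2 x h1.1, map_one]
  have hres := lift_pcp K hcop2 Ub hUb1 hUb2 ![M ⊓ K, N ⊓ K, θ.range] (t := t₀) ?_ ?_ ?_ ?_
  · rw [← hst] at hres
    exact hres
  · intro i
    fin_cases i
    · exact hM2
    · exact hN2
    · exact hDc
  · intro i
    fin_cases i
    · exact inf_le_right
    · exact inf_le_right
    · exact hDK
  · intro i j hij
    fin_cases i <;> fin_cases j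
    · exact absurd rfl hij
    · exact h01
    · exact h02
    · exact (inf_comm _ _).trans h01
    · exact absurd rfl hij
    · exact h12
    · exact (inf_comm _ _).trans h02
    · exact (inf_comm _ _).trans h12
    · exact absurd rfl hij
  · intro i
    fin_cases i
    · intro y _ x hx
      exact ⟨hM.conj_mem x hx.1 y, hKn.conj_mem x hx.2 y⟩
    · intro y _ x hx
      exact ⟨hN.conj_mem x hx.1 y, hKn.conj_mem x hx.2 y⟩
    · intro y hy x hx
      have hyA : y ∈ A := (mk_mem_map_iff K hKA y).1 (hUb3 hy)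
      have hx' : x ∈ θ.range := hx
      change y * x * y⁻¹ ∈ θ.range
      rw [hcomm y hyA x (hKA (hDK hx')), mul_inv_cancel_right]
      exact hx'

end Pool.Agent.PCPem
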