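import Pool.Agent.Lib_MP_53dcbc_em.Nec
import Pool.Agent.Lib_MP_53dcbc_em.GSuf

/-!
# Groups with an abelian normal subgroup of prime index: the condition is necessary
-/

set_option autoImplicit false

namespace Pool.Agent.PCPem

open Subgroup
open scoped commutatorElement

universe u

/-- `A` is the product of its two parts -/
theorem exists_decomp {G : Type u} [Group G] [Finite G] {A : Subgroup G}
    (hcomm : ∀ x ∈ A, ∀ y ∈ A, x * y = y * x) {q : ℕ}
    (hexp : ∀ x ∈ A, x ^ (q ^ 2) = 1 → x ^ q = 1) {a : G} (ha : a ∈ A) :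
    ∃ x ∈ tor A hcomm q, ∃ y ∈ pw A hcomm q, x * y = a := by
  have hn : ∀ y ∈ pw A hcomm q, ∀ x ∈ tor A hcomm q, y * x * y⁻¹ ∈ tor A hcomm q := by
    intro y hy x hx
    rwa [hcomm y (pw_le hcomm hy) x (tor_le hcomm hx), mul_inv_cancel_right]
  have h1 : prodSub (tor A hcomm q) (pw A hcomm q) hn = A := by
    apply Subgroup.eq_of_le_of_card_ge (prodSub_le (tor_le hcomm) (pw_le hcomm))
    rw [card_prodSub (tor_inf_pw hcomm hexp), card_tor_mul_card_pw]
  rw [← h1] at ha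
  exact ha

/-- If three subgroups of order `t` of an abelian group `K` of order `t ^ 2` are disjoint, the first
embeds into the second. -/
theorem embed_of_three {G : Type u} [Group G] [Finite G] {K X Y Z : Subgroup G}
    (hcomm : ∀ x ∈ K, ∀ y ∈ K, x * y = y * x) {t : ℕ} (hK : Nat.card K = t ^ 2) (hX : X ≤ K)
    (hY : Y ≤ K) (hZ : Z ≤ K) (hcY : Nat.card Y = t) (hcZ : Nat.card Z = t) (hXZ : X ⊓ Z = ⊥)
    (hYZ : Y ⊓ Z = ⊥) : ∃ f : X →* Y, Function.Injective f := by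
  have hn : ∀ z ∈ Z, ∀ y ∈ Y, z * y * z⁻¹ ∈ Y := by
    intro z hz y hy
    rwa [hcomm z (hZ hz) y (hY hy), mul_inv_cancel_right]
  have h1 : prodSub Y Z hn = K := by
    apply Subgroup.eq_of_le_of_card_ge (prodSub_le hY hZ)
    rw [card_prodSub hYZ, hcY, hcZ, hK, pow_two]
  have h2 : ∀ x : X, ∃ y : Y, ∃ z : Z, (y : G) * z = x := by
    intro x
    have h3 : (x : G) ∈ prodSub Y Z hn := by
      rw [h1]
      exact hX x.2
    obtain ⟨y, hy, z, hz, hyz⟩ := h3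
    exact ⟨⟨y, hy⟩, ⟨z, hz⟩, hyz⟩
  choose f g hfg using h2
  have hinj := Subgroup.mul_injective_of_disjoint (disjoint_iff.2 hYZ)
  refine ⟨MonoidHom.mk' f (fun a b => ?_), ?_⟩
  · have h3 : (f (a * b) : G) * g (a * b) = (f a * f b : Y) * (g a * g b : Z) := by
      rw [hfg]
      change (a : G) * b = f a * f b * (g a * g b)
      rw [← hfg a, ← hfg b, mul_assoc, mul_assoc, ← mul_assoc (g a : G),
        hcomm (g a) (hZ (g a).2) (f b) (hY (f b).2), mul_assoc]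
    have h4 := hinj (a₁ := ⟨f (a * b), g (a * b)⟩) (a₂ := ⟨f a * f b, g a * g b⟩) h3
    exact congrArg Prod.fst h4
  · rw [injective_iff_map_eq_one]
    intro a ha
    have h3 : (f a : G) = 1 := congrArg Subtype.val ha
    have h4 : (a : G) ∈ X ⊓ Z := by
      refine ⟨a.2, ?_⟩
      rw [← hfg a, h3, one_mul]
      exact (g a).2
    rw [hXZ, mem_bot] at h4
    exact Subtype.ext h4

/-- Subgroups of exponent `q` of an abelian group embed into larger ones. -/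
theorem embed_of_exp' {G : Type u} [Group G] [Finite G] {A X Y : Subgroup G}
    (hcomm : ∀ x ∈ A, ∀ y ∈ A, x * y = y * x) {q : ℕ} (hq : q.Prime) (hX : X ≤ A) (hY : Y ≤ A)
    (hXq : ∀ x ∈ X, x ^ q = 1) (hYq : ∀ x ∈ Y, x ^ q = 1) (hc : Nat.card X ≤ Nat.card Y) :
    ∃ f : X →* Y, Function.Injective f := by
  let _i1 : CommGroup X :=
    { (inferInstance : Group X) with
      mul_comm := fun a b => Subtype.ext (hcomm a (hX a.2) b (hX b.2)) }
  let _i2 : CommGroup Y :=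
    { (inferInstance : Group Y) with
      mul_comm := fun a b => Subtype.ext (hcomm a (hY a.2) b (hY b.2)) }
  exact embed_of_exp hq (fun x => Subtype.ext (hXq x x.2)) (fun x => Subtype.ext (hYq x x.2)) hc

theorem fin3_third : ∀ i j : Fin 3, i ≠ j → ∃ k, k ≠ i ∧ k ≠ j := by decide

theorem general_nec {q s : ℕ} (hq : q.Prime) (G : Type u) [Group G] [Finite G]
    (hG : Nat.card G = s ^ 2) (A : Subgroup G) [hAn : A.Normal] (hidx : A.index = q)
    (hcomm : ∀ x ∈ A, ∀ y ∈ A, x * y = y * x) (hexp : ∀ x ∈ A, x ^ (q ^ 2) = 1 → x ^ q = 1)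
    (U : Fin 3 → Subgroup G) (hU1 : ∀ i, Nat.card (U i) = s) (hU2 : ∀ i j, i ≠ j → U i ⊓ U j = ⊥) :
    ∃ M N : Subgroup G, M.Normal ∧ N.Normal ∧ M ⊓ N = ⊥ ∧ M ⊔ N = A ∧
      Nat.card M * q = s ∧ Nat.card N = s ∧ (∃ φ : M →* N, Function.Injective φ) ∧
      ∃ t, t ∉ A ∧ (t ^ q = 1 ∨
        ((∃ m ∈ M, m ^ q = 1 ∧ t ^ q = (fun y => ⁅t, y⁆)^[q - 2] m) ∧
          ∃ n ∈ N, n ^ q = 1 ∧ (fun y => ⁅t, y⁆)^[q - 1] n ≠ 1)) := by
  have hfq := Fact.mk hq
  obtain ⟨t₀, v, b, ht0, hv0, hK, hst, hvb, hcop⟩ := exists_tu hcomm hq hG hidx hexp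
  have hKA := pw_le hcomm (q := q)
  have hSA := tor_le hcomm (q := q)
  have hKn : (pw A hcomm q).Normal := pw_normal hcomm
  have hSn : (tor A hcomm q).Normal := tor_normal hcomm
  have hSK := tor_inf_pw hcomm hexp
  have hcqK := coprime_card_pw hcomm hq hexp
  have hpw : ∀ a ∈ A, a ^ q ∈ pw A hcomm q := fun a ha => ⟨a, ha, rfl⟩
  have htor : ∀ a ∈ A, a ^ q = 1 → a ∈ tor A hcomm q := fun a ha h => ⟨ha, h⟩
  have htor' : ∀ a ∈ tor A hcomm q, a ^ q = 1 := fun a ha => ha.2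
  have hdec : ∀ a ∈ A, ∃ x ∈ tor A hcomm q, ∃ y ∈ pw A hcomm q, x * y = a :=
    fun a ha => exists_decomp hcomm hexp ha
  generalize pw A hcomm q = K at *
  generalize tor A hcomm q = S at *
  have hQ := Pool.Agent.Lib_MP_53dcbc_mc.card_quot' ht0 hst hG hK
  have hcardK : ∀ i, Nat.card (U i ⊓ K : Subgroup G) = t₀ := fun i =>
    Pool.Agent.Lib_MP_53dcbc_mc.card_inf_hall ht0 hv0 hcop hst hG (hU1 i) hK
  obtain ⟨hUb1, hUb2⟩ := Pool.Agent.Lib_MP_53dcbc_mc.quotient_pcp ht0 hst hG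
    (show Pool.Agent.Lib_MP_53dcbc_co.IsPCP s U from ⟨hU1, hU2⟩) hK hcardK
  have hAb : (A.map (QuotientGroup.mk' K)).Normal :=
    Subgroup.Normal.map inferInstance _ (QuotientGroup.mk'_surjective K)
  obtain ⟨V, iV, mV, ⟨E⟩⟩ := exists_emb q hq (G ⧸ K) (A.map (QuotientGroup.mk' K))
    (quot_comm K hcomm) (by
      rintro _ ⟨a, ha, rfl⟩
      rw [← map_pow]
      exact (QuotientGroup.eq_one_iff _).2 (hpw a ha))
  have hidx' := (quot_index K hKA).trans hidx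
  -- two of the images are not contained in the image of `A`
  obtain ⟨i, j, hij, hi, hj⟩ : ∃ i j : Fin 3, i ≠ j ∧
      ¬ (U i).map (QuotientGroup.mk' K) ≤ A.map (QuotientGroup.mk' K) ∧
      ¬ (U j).map (QuotientGroup.mk' K) ≤ A.map (QuotientGroup.mk' K) := by
    have key2 : ∀ i j, i ≠ j → (U i).map (QuotientGroup.mk' K) ≤ A.map (QuotientGroup.mk' K) →
        ¬ (U j).map (QuotientGroup.mk' K) ≤ A.map (QuotientGroup.mk' K) := fun i j hij h1 h2 =>
      not_both_le hq hidx' hQ (hUb1 i) (hUb1 j) (hUb2 i j hij) h1 h2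
    by_cases h0 : (U 0).map (QuotientGroup.mk' K) ≤ A.map (QuotientGroup.mk' K)
    · exact ⟨1, 2, by decide, key2 0 1 (by decide) h0, key2 0 2 (by decide) h0⟩
    · by_cases h1 : (U 1).map (QuotientGroup.mk' K) ≤ A.map (QuotientGroup.mk' K)
      · exact ⟨0, 2, by decide, h0, key2 1 2 (by decide) h1⟩
      · exact ⟨0, 1, by decide, h0, h1⟩
  obtain ⟨k, hki, hkj⟩ := fin3_third i j hij
  obtain ⟨Mb, Nb, hMb, hNb, hMNb, hsupb, hcMb, hcNb, tb, htb, hcase⟩ := necessary_two E hidx' hQ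
    ((U i).map (QuotientGroup.mk' K)) ((U j).map (QuotientGroup.mk' K)) (hUb1 i) (hUb1 j)
    (hUb2 i j hij) hi hj
  have hMbA : Mb ≤ A.map (QuotientGroup.mk' K) := hsupb ▸ le_sup_left
  have hNbA : Nb ≤ A.map (QuotientGroup.mk' K) := hsupb ▸ le_sup_right
  -- the lifts of the two subgroups
  have hlift : ∀ L : Subgroup (G ⧸ K), L ≤ A.map (QuotientGroup.mk' K) →
      (S ⊓ L.comap (QuotientGroup.mk' K)).map (QuotientGroup.mk' K) = L := by
    intro L hL
    ext z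
    constructor
    · rintro ⟨y, hy, rfl⟩
      exact hy.2
    · intro hz
      obtain ⟨a, ha, rfl⟩ := hL hz
      obtain ⟨x, hx, y, hy, rfl⟩ := hdec a ha
      have h1 : QuotientGroup.mk' K (x * y) = QuotientGroup.mk' K x := by
        rw [map_mul]
        have : QuotientGroup.mk' K y = 1 := (QuotientGroup.eq_one_iff _).2 hy
        rw [this, mul_one]
      rw [h1] at hz ⊢
      exact ⟨x, ⟨hx, hz⟩, rfl⟩
  have hliftc : ∀ L : Subgroup (G ⧸ K), L ≤ A.map (QuotientGroup.mk' K) →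
      Nat.card (S ⊓ L.comap (QuotientGroup.mk' K) : Subgroup G) = Nat.card L := by
    intro L hL
    have h1 := Pool.Agent.Lib_MP_53dcbc_mc.card_map_mul_card_inf K
      (S ⊓ L.comap (QuotientGroup.mk' K))
    have h2 : (S ⊓ L.comap (QuotientGroup.mk' K)) ⊓ K = ⊥ := by
      rw [eq_bot_iff, ← hSK]
      exact fun x hx => ⟨hx.1.1, hx.2⟩
    rw [hlift L hL, h2, card_bot, mul_one] at h1
    exact h1.symm
  -- normality
  have hnorm : ∀ l : Fin 3, ¬ (U l).map (QuotientGroup.mk' K) ≤ A.map (QuotientGroup.mk' K) →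
      (U l ⊓ K).Normal := by
    intro l hl
    have h1 : ¬ U l ≤ A := fun h => hl (Subgroup.map_mono h)
    obtain ⟨x, hx, hxA⟩ := SetLike.not_le_iff_exists.1 h1
    refine normal_of_conj' hcomm hq hidx hxA (inf_le_right.trans hKA) ?_
    rintro y ⟨hy1, hy2⟩
    exact ⟨(U l).mul_mem ((U l).mul_mem hx hy1) ((U l).inv_mem hx), hKn.conj_mem y hy2 x⟩
  have hn1 := hnorm i hi
  have hn2 := hnorm j hj
  set MS : Subgroup G := S ⊓ Mb.comap (QuotientGroup.mk' K) with hMS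
  set NS : Subgroup G := S ⊓ Nb.comap (QuotientGroup.mk' K) with hNS
  have hMSn : MS.Normal := Subgroup.normal_inf_normal _ _
  have hNSn : NS.Normal := Subgroup.normal_inf_normal _ _
  have hMSS : MS ≤ S := inf_le_left
  have hNSS : NS ≤ S := inf_le_left
  have hKS : K ⊓ S = ⊥ := (inf_comm _ _).trans hSK
  have hc1 : ∀ y ∈ MS, ∀ x ∈ U i ⊓ K, y * x * y⁻¹ ∈ U i ⊓ K := fun y _ x hx =>
    hn1.conj_mem x hx y
  have hc2 : ∀ y ∈ NS, ∀ x ∈ U j ⊓ K, y * x * y⁻¹ ∈ U j ⊓ K := fun y _ x hx =>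
    hn2.conj_mem x hx y
  have hMNS : MS ⊓ NS = ⊥ := by
    rw [eq_bot_iff]
    rintro y ⟨h1, h2⟩
    have h3 : QuotientGroup.mk' K y ∈ Mb ⊓ Nb := ⟨h1.2, h2.2⟩
    rw [hMNb, mem_bot] at h3
    rw [← hSK]
    exact ⟨h1.1, (QuotientGroup.eq_one_iff _).1 h3⟩
  have hd1 : (U i ⊓ K) ⊓ MS = ⊥ := by
    rw [eq_bot_iff, ← hKS]
    exact fun x hx => ⟨hx.1.2, hx.2.1⟩
  have hd2 : (U j ⊓ K) ⊓ NS = ⊥ := by
    rw [eq_bot_iff, ← hKS]
    exact fun x hx => ⟨hx.1.2, hx.2.1⟩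
  have hU12 : ∀ a b : Fin 3, a ≠ b → (U a ⊓ K) ⊓ (U b ⊓ K) = ⊥ := by
    intro a b hab
    rw [eq_bot_iff, ← hU2 a b hab]
    exact fun x hx => ⟨hx.1.1, hx.2.1⟩
  have hcM : Nat.card (prodSub (U i ⊓ K) MS hc1) * q = s := by
    rw [card_prodSub hd1, hcardK, hMS, hliftc Mb hMbA, mul_assoc, hcMb, hst]
  have hcN : Nat.card (prodSub (U j ⊓ K) NS hc2) = s := by
    rw [card_prodSub hd2, hcardK, hNS, hliftc Nb hNbA, hcNb, hst]
  have hMA : prodSub (U i ⊓ K) MS hc1 ≤ A :=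
    prodSub_le (inf_le_right.trans hKA) (hMSS.trans hSA)
  have hNA : prodSub (U j ⊓ K) NS hc2 ≤ A :=
    prodSub_le (inf_le_right.trans hKA) (hNSS.trans hSA)
  have hMN : prodSub (U i ⊓ K) MS hc1 ⊓ prodSub (U j ⊓ K) NS hc2 = ⊥ :=
    prodSub_inf inf_le_right inf_le_right hMSS hNSS hKS (hU12 i j hij) hMNS
  have hMnorm : (prodSub (U i ⊓ K) MS hc1).Normal := prodSub_normal hn1 hMSn
  have hNnorm : (prodSub (U j ⊓ K) NS hc2).Normal := prodSub_normal hn2 hNSn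
  have hs0 : 0 < s := by rw [hst]; exact Nat.mul_pos ht0 hv0
  -- the complement
  have hcop2 : Nat.Coprime (Nat.card K) K.index := by
    have h1 : K.index = v ^ 2 := hQ
    rw [hK, h1]
    exact Nat.Coprime.pow 2 2 hcop
  obtain ⟨H, hH⟩ := exists_right_complement'_of_coprime hcop2
  have hKH : K ⊓ H = ⊥ := disjoint_iff.1 hH.disjoint
  have hcH : Nat.card H = v ^ 2 := by
    rw [← hH.symm.index_eq_card]
    exact hQ
  -- elements of `A` in the complement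
  have hHA : ∀ x ∈ H, x ∈ A → x ∈ S := by
    intro x hxH hxA
    obtain ⟨y, hy, z, hz, hyz⟩ := hdec x hxA
    have h1 : x ^ (v ^ 2) = 1 := by
      rw [← hcH]
      exact congrArg Subtype.val (pow_card_eq_one' (x := (⟨x, hxH⟩ : H)))
    have h2 : (x ^ q) ^ (v ^ 2) = 1 := by rw [← pow_mul, mul_comm, pow_mul, h1, one_pow]
    have h3 : x ^ q = z ^ q := by
      rw [← hyz, (show Commute y z from hcomm y (hSA hy) z (hKA hz)).mul_pow, htor' y hy, one_mul]
    have h4 : x ^ q = 1 := by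
      have h5 : (x ^ q) ^ Nat.card K = 1 := by
        rw [h3]
        exact congrArg Subtype.val (pow_card_eq_one' (x := (⟨z ^ q, K.pow_mem hz q⟩ : K)))
      have h6 : orderOf (x ^ q) ∣ Nat.gcd (Nat.card K) (v ^ 2) :=
        Nat.dvd_gcd (orderOf_dvd_of_pow_eq_one h5) (orderOf_dvd_of_pow_eq_one h2)
      have h7 : Nat.gcd (Nat.card K) (v ^ 2) = 1 := by
        rw [hK]
        exact Nat.Coprime.pow 2 2 hcop
      rw [h7, Nat.dvd_one, orderOf_eq_one_iff] at h6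
      exact h6
    exact htor x hxA h4
  obtain ⟨g, rfl⟩ := QuotientGroup.mk'_surjective K tb
  obtain ⟨⟨k₀, h₀⟩, hkh⟩ := hH.2 g
  have hkh' : k₀.1 * h₀.1 = g := hkh
  have hmk : QuotientGroup.mk' K g = QuotientGroup.mk' K h₀.1 := by
    rw [← hkh', map_mul]
    have : QuotientGroup.mk' K k₀.1 = 1 := (QuotientGroup.eq_one_iff _).2 k₀.2
    rw [this, one_mul]
  rw [hmk] at htb hcase
  set t : G := h₀.1 with htdef
  have htH : t ∈ H := h₀.2
  have htA : t ∉ A := fun h => htb ((mk_mem_map_iff K hKA t).2 h)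
  have htq : t ^ q ∈ S := by
    refine hHA _ (H.pow_mem htH q) ?_
    have := Subgroup.pow_index_mem A t
    rwa [hidx] at this
  have hSeq : ∀ x ∈ S, ∀ y ∈ S, QuotientGroup.mk' K x = QuotientGroup.mk' K y → x = y := by
    intro x hx y hy hxy
    have h1 : x⁻¹ * y ∈ K := QuotientGroup.eq.1 hxy
    have h2 : x⁻¹ * y ∈ S ⊓ K := ⟨S.mul_mem (S.inv_mem hx) hy, h1⟩
    rw [hSK, mem_bot] at h2
    exact (inv_mul_eq_one.1 h2)
  refine ⟨prodSub (U i ⊓ K) MS hc1, prodSub (U j ⊓ K) NS hc2, hMnorm, hNnorm, hMN, ?_, hcM, hcN,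
    ?_, t, htA, ?_⟩
  · apply Subgroup.eq_of_le_of_card_ge (sup_le hMA hNA)
    have h1 := Subgroup.mul_injective_of_disjoint (disjoint_iff.2 hMN)
    have h2 := Nat.card_le_card_of_injective (β := (prodSub (U i ⊓ K) MS hc1 ⊔
      prodSub (U j ⊓ K) NS hc2 : Subgroup G))
      (fun a : prodSub (U i ⊓ K) MS hc1 × prodSub (U j ⊓ K) NS hc2 =>
        ⟨a.1 * a.2, Subgroup.mul_mem_sup a.1.2 a.2.2⟩)
      (fun a b hab => h1 (congrArg Subtype.val hab))
    rw [Nat.card_prod, hcN] at h2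
    have h3 := Subgroup.card_mul_index A
    rw [hidx, hG] at h3
    have h4 : Nat.card A * q = Nat.card (prodSub (U i ⊓ K) MS hc1) * s * q := by
      rw [h3, mul_right_comm, hcM, pow_two]
    rw [Nat.eq_of_mul_eq_mul_right hq.pos h4]
    exact h2
  · obtain ⟨α, hα⟩ := embed_of_three (X := U i ⊓ K) (Y := U j ⊓ K) (Z := U k ⊓ K)
      (fun x hx y hy => hcomm x (hKA hx) y (hKA hy)) hK inf_le_right inf_le_right inf_le_right
      (hcardK j) (hcardK k) (hU12 i k hki.symm) (hU12 j k hkj.symm)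
    obtain ⟨β, hβ⟩ := embed_of_exp' hcomm hq (hMSS.trans hSA) (hNSS.trans hSA)
      (fun x hx => htor' x (hMSS hx)) (fun x hx => htor' x (hNSS hx)) (by
        rw [hMS, hNS, hliftc Mb hMbA, hliftc Nb hNbA, hcNb, ← hcMb]
        exact Nat.le_mul_of_pos_right _ hq.pos)
    exact prodSub_embed hcomm (inf_le_right.trans hKA) (hMSS.trans hSA) (inf_le_right.trans hKA)
      (hNSS.trans hSA) hd1 hd2 α hα β hβ
  · rcases hcase with h | ⟨⟨mb, hmb, hmb'⟩, nb, hnb, hnb'⟩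
    · left
      apply hSeq _ htq _ S.one_mem
      rw [map_pow, h, map_one]
    · right
      rw [← hlift Mb hMbA] at hmb
      rw [← hlift Nb hNbA] at hnb
      obtain ⟨m, hm, rfl⟩ := hmb
      obtain ⟨n, hn, rfl⟩ := hnb
      refine ⟨⟨m, right_mem hm, htor' m hm.1, ?_⟩, n, right_mem hn, htor' n hn.1, ?_⟩
      · apply hSeq _ htq _ (iter_mem hSn t _ hm.1)
        rw [map_pow, hmb', iter_map]
      · intro h
        apply hnb'
        rw [← iter_map, h, map_one]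

end Pool.Agent.PCPem
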