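import Pool.Agent.Lib_MP_53dcbc_em.Neg

/-!
# Abelian normal subgroups with a cyclic factor group of larger prime power order
-/

set_option autoImplicit false

namespace Pool.Agent.PCPem

open Subgroup
open scoped commutatorElement

universe u

theorem general_neg {q k s : ℕ} (hq : q.Prime) (hk : 2 ≤ k) (h4 : q ^ k ≠ 4) (G : Type u) [Group G]
    [Finite G] (hG : Nat.card G = s ^ 2) (A : Subgroup G) [hAn : A.Normal] [IsCyclic (G ⧸ A)]
    (hidx : A.index = q ^ k) (hcomm : ∀ x ∈ A, ∀ y ∈ A, x * y = y * x)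
    (hexp : ∀ x ∈ A, x ^ (q ^ 2) = 1 → x ^ q = 1)
    (U : Fin 3 → Subgroup G) (hU1 : ∀ i, Nat.card (U i) = s) (hU2 : ∀ i j, i ≠ j → U i ⊓ U j = ⊥) :
    False := by
  have hfq := Fact.mk hq
  have hk0 : k ≠ 0 := by omega
  obtain ⟨t₀, v, b, ht0, hv0, hK, hst, hvb, hcop⟩ := exists_tu_pow hcomm hq hG hidx hexp
  have hKA := pw_le hcomm (q := q)
  have hKn : (pw A hcomm q).Normal := pw_normal hcomm
  have hpw : ∀ a ∈ A, a ^ q ∈ pw A hcomm q := fun a ha => ⟨a, ha, rfl⟩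
  generalize pw A hcomm q = K at *
  have hQ := Pool.Agent.Lib_MP_53dcbc_mc.card_quot' ht0 hst hG hK
  have hcardK : ∀ i, Nat.card (U i ⊓ K : Subgroup G) = t₀ := fun i =>
    Pool.Agent.Lib_MP_53dcbc_mc.card_inf_hall ht0 hv0 hcop hst hG (hU1 i) hK
  have hUb := Pool.Agent.Lib_MP_53dcbc_mc.quotient_pcp ht0 hst hG
    (show Pool.Agent.Lib_MP_53dcbc_co.IsPCP s U from ⟨hU1, hU2⟩) hK hcardK
  have hAb : (A.map (QuotientGroup.mk' K)).Normal :=
    Subgroup.Normal.map inferInstance _ (QuotientGroup.mk'_surjective K)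
  obtain ⟨V, iV, mV, ⟨E⟩⟩ := exists_emb q hq (G ⧸ K) (A.map (QuotientGroup.mk' K))
    (quot_comm K hcomm) (by
      rintro _ ⟨a, ha, rfl⟩
      rw [← map_pow]
      exact (QuotientGroup.eq_one_iff _).2 (hpw a ha))
  have hidx' := (quot_index K hKA).trans hidx
  obtain ⟨gb, hgb⟩ := IsCyclic.exists_generator (α := G ⧸ A)
  obtain ⟨g, rfl⟩ := QuotientGroup.mk'_surjective A gb
  have hg' : ∀ y : (G ⧸ K) ⧸ (A.map (QuotientGroup.mk' K)),
      y ∈ zpowers ((QuotientGroup.mk' K g : G ⧸ K) : (G ⧸ K) ⧸ (A.map (QuotientGroup.mk' K))) := by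
    intro y
    obtain ⟨z, rfl⟩ := QuotientGroup.mk'_surjective _ y
    obtain ⟨x, rfl⟩ := QuotientGroup.mk'_surjective _ z
    obtain ⟨n, hn⟩ := mem_zpowers_iff.1 (hgb (QuotientGroup.mk' A x))
    refine mem_zpowers_iff.2 ⟨n, ?_⟩
    have h1 : (g ^ n)⁻¹ * x ∈ A := by
      apply QuotientGroup.eq.1
      rw [QuotientGroup.mk_zpow]
      exact hn
    rw [← QuotientGroup.mk_zpow, ← map_zpow]
    apply QuotientGroup.eq.2
    rw [← map_inv, ← map_mul]
    exact ⟨_, h1, rfl⟩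
  -- one of two components generates the factor group
  have key := fun {i j : Fin 3} (hij : i ≠ j) => one_generates hq hk0 hidx' (QuotientGroup.mk' K g)
    hg' hQ _ hUb hij
  have key2 : ∀ i j : Fin 3, i ≠ j →
      (U i).map (QuotientGroup.mk' K) ⊔ A.map (QuotientGroup.mk' K) = ⊤ →
      (U j).map (QuotientGroup.mk' K) ⊔ A.map (QuotientGroup.mk' K) = ⊤ → False :=
    fun i j hij h1 h2 => no_two_of_cyclic E hk0 hidx' (lt_pow_aux hq.two_le hk h4)
      (QuotientGroup.mk' K g) hg' hQ _ _ (hUb.1 i) (hUb.1 j) (hUb.2 i j hij) h1 h2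
  by_cases h0 : (U 0).map (QuotientGroup.mk' K) ⊔ A.map (QuotientGroup.mk' K) = ⊤
  · by_cases h1 : (U 1).map (QuotientGroup.mk' K) ⊔ A.map (QuotientGroup.mk' K) = ⊤
    · exact key2 0 1 (by decide) h0 h1
    · by_cases h2 : (U 2).map (QuotientGroup.mk' K) ⊔ A.map (QuotientGroup.mk' K) = ⊤
      · exact key2 0 2 (by decide) h0 h2
      · exact key (i := 1) (j := 2) (by decide) h1 h2
  · by_cases h1 : (U 1).map (QuotientGroup.mk' K) ⊔ A.map (QuotientGroup.mk' K) = ⊤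
    · by_cases h2 : (U 2).map (QuotientGroup.mk' K) ⊔ A.map (QuotientGroup.mk' K) = ⊤
      · exact key2 1 2 (by decide) h1 h2
      · exact key (i := 0) (j := 2) (by decide) h0 h2
    · exact key (i := 0) (j := 1) (by decide) h0 h1

end Pool.Agent.PCPem
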