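import Mathlib
import Pool.Agent.Lib_MP_53dcbc_mc.Quot

/-!
# Abelian normal subgroups of prime index: the two parts
-/

set_option autoImplicit false

namespace Pool.Agent.PCPem

open Subgroup

universe u

/-- A subgroup of the abelian subgroup `A` which is normalised by some `t` outside `A` is normal. -/
theorem normal_of_conj' {G : Type u} [Group G] [Finite G] {A : Subgroup G}
    (hcomm : ∀ x ∈ A, ∀ y ∈ A, x * y = y * x) {p : ℕ} (hp : p.Prime) (hidx : A.index = p) {t : G}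
    (ht : t ∉ A) {H : Subgroup G} (hH : H ≤ A) (hc : ∀ h ∈ H, t * h * t⁻¹ ∈ H) : H.Normal := by
  rw [← Subgroup.normalizer_eq_top_iff]
  have h1 : A ≤ Subgroup.normalizer (H : Set G) := by
    intro a ha
    rw [Subgroup.mem_normalizer_iff]
    intro h
    constructor
    · intro hh
      rwa [hcomm a ha h (hH hh), mul_inv_cancel_right]
    · intro hh
      have h2 : h ∈ A := by
        have := A.mul_mem (A.mul_mem (A.inv_mem ha) (hH hh)) ha
        simpa [mul_assoc] using this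
      rwa [hcomm a ha h h2, mul_inv_cancel_right] at hh
  have h2 : t ∈ Subgroup.normalizer (H : Set G) := by
    have hinj : Function.Injective (fun h : H => (⟨t * h * t⁻¹, hc h h.2⟩ : H)) := by
      intro a b hab
      have := congrArg Subtype.val hab
      simpa using this
    have hsurj := Finite.surjective_of_injective hinj
    rw [Subgroup.mem_normalizer_iff]
    intro h
    constructor
    · intro hh
      exact hc h hh
    · intro hh
      obtain ⟨k, hk⟩ := hsurj ⟨_, hh⟩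
      have := congrArg Subtype.val hk
      have hkh : (k : G) = h := by simpa using this
      rw [← hkh]
      exact k.2
  set Nz := Subgroup.normalizer (H : Set G)
  have h3 := Subgroup.relIndex_mul_index h1
  rw [hidx] at h3
  rcases (Nat.dvd_prime hp).1 (Dvd.intro_left _ h3) with h4 | h4
  · exact Subgroup.index_eq_one.1 h4
  · exfalso
    rw [h4] at h3
    have h5 : A.relIndex Nz = 1 := by
      have := hp.pos
      exact Nat.eq_of_mul_eq_mul_right this (by rw [h3, one_mul])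
    exact ht (Subgroup.relIndex_eq_one.1 h5 h2)

section Parts

variable {G : Type u} [Group G]

/-- the elements `x` of `A` with `x ^ q = 1` -/
def tor (A : Subgroup G) (hcomm : ∀ x ∈ A, ∀ y ∈ A, x * y = y * x) (q : ℕ) : Subgroup G where
  carrier := {x | x ∈ A ∧ x ^ q = 1}
  mul_mem' := by
    rintro a b ⟨ha, ha'⟩ ⟨hb, hb'⟩
    refine ⟨A.mul_mem ha hb, ?_⟩
    rw [(show Commute a b from hcomm a ha b hb).mul_pow, ha', hb', one_mul]
  one_mem' := ⟨A.one_mem, one_pow q⟩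
  inv_mem' := by
    rintro a ⟨ha, ha'⟩
    exact ⟨A.inv_mem ha, by rw [inv_pow, ha', inv_one]⟩

/-- the `q`-th powers of the elements of `A` -/
def pw (A : Subgroup G) (hcomm : ∀ x ∈ A, ∀ y ∈ A, x * y = y * x) (q : ℕ) : Subgroup G where
  carrier := {x | ∃ a ∈ A, a ^ q = x}
  mul_mem' := by
    rintro _ _ ⟨a, ha, rfl⟩ ⟨b, hb, rfl⟩
    exact ⟨a * b, A.mul_mem ha hb, (show Commute a b from hcomm a ha b hb).mul_pow q⟩
  one_mem' := ⟨1, A.one_mem, one_pow q⟩
  inv_mem' := by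
    rintro _ ⟨a, ha, rfl⟩
    exact ⟨a⁻¹, A.inv_mem ha, inv_pow a q⟩

variable {A : Subgroup G} (hcomm : ∀ x ∈ A, ∀ y ∈ A, x * y = y * x) {q : ℕ}

theorem tor_le : tor A hcomm q ≤ A := fun _ h => h.1

theorem pw_le : pw A hcomm q ≤ A := by
  rintro _ ⟨a, ha, rfl⟩
  exact A.pow_mem ha q

theorem tor_normal [hA : A.Normal] : (tor A hcomm q).Normal := by
  refine ⟨?_⟩
  rintro x ⟨hx, hx'⟩ g
  refine ⟨hA.conj_mem x hx g, ?_⟩
  rw [conj_pow, hx', mul_one, mul_inv_cancel]

theorem pw_normal [hA : A.Normal] : (pw A hcomm q).Normal := by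
  refine ⟨?_⟩
  rintro _ ⟨a, ha, rfl⟩ g
  exact ⟨g * a * g⁻¹, hA.conj_mem a ha g, conj_pow⟩

theorem card_tor_mul_card_pw [Finite G] :
    Nat.card (tor A hcomm q) * Nat.card (pw A hcomm q) = Nat.card A := by
  let f : A →* G :=
    { toFun := fun a => (a : G) ^ q
      map_one' := one_pow q
      map_mul' := fun a b => (show Commute (a : G) b from hcomm a a.2 b b.2).mul_pow q }
  have h1 := Subgroup.card_mul_index f.ker
  rw [Subgroup.index_ker] at h1
  have h2 : f.range = pw A hcomm q := by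
    ext x
    constructor
    · rintro ⟨a, rfl⟩
      exact ⟨a, a.2, rfl⟩
    · rintro ⟨a, ha, rfl⟩
      exact ⟨⟨a, ha⟩, rfl⟩
  have h3 : f.ker.map A.subtype = tor A hcomm q := by
    ext x
    constructor
    · rintro ⟨a, ha, rfl⟩
      exact ⟨a.2, ha⟩
    · rintro ⟨ha, ha'⟩
      exact ⟨⟨x, ha⟩, ha', rfl⟩
  have h4 : Nat.card (f.ker.map A.subtype) = Nat.card f.ker :=
    Subgroup.card_map_of_injective A.subtype_injective
  rw [← h2, ← h3, h4, h1]

theorem tor_inf_pw (hexp : ∀ x ∈ A, x ^ (q ^ 2) = 1 → x ^ q = 1) :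
    tor A hcomm q ⊓ pw A hcomm q = ⊥ := by
  rw [eq_bot_iff]
  rintro x ⟨⟨-, h1⟩, ⟨a, ha, rfl⟩⟩
  rw [mem_bot]
  apply hexp a ha
  rw [pow_two, pow_mul, h1]

theorem coprime_card_pw [Finite G] (hq : q.Prime) (hexp : ∀ x ∈ A, x ^ (q ^ 2) = 1 → x ^ q = 1) :
    Nat.Coprime q (Nat.card (pw A hcomm q)) := by
  rw [hq.coprime_iff_not_dvd]
  intro hdvd
  have := Fact.mk hq
  obtain ⟨x, hx⟩ := exists_prime_orderOf_dvd_card' (G := pw A hcomm q) q hdvd
  have h1 : (x : G) ∈ tor A hcomm q ⊓ pw A hcomm q := by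
    refine ⟨⟨pw_le hcomm x.2, ?_⟩, x.2⟩
    have := pow_orderOf_eq_one x
    rw [hx] at this
    exact congrArg Subtype.val this
  rw [tor_inf_pw hcomm hexp, mem_bot] at h1
  have h2 : x = 1 := Subtype.ext h1
  rw [h2, orderOf_one] at hx
  exact hq.one_lt.ne hx

theorem card_tor [Finite G] (hq : q.Prime) : ∃ c, Nat.card (tor A hcomm q) = q ^ c := by
  have := Fact.mk hq
  apply IsPGroup.iff_card.1
  intro x
  refine ⟨1, Subtype.ext ?_⟩
  rw [pow_one]
  exact x.2.2

theorem mem_pw_iff [Finite G] (hq : q.Prime) (hexp : ∀ x ∈ A, x ^ (q ^ 2) = 1 → x ^ q = 1) {x : G}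
    (hx : x ∈ A) : x ∈ pw A hcomm q ↔ x ^ Nat.card (pw A hcomm q) = 1 := by
  constructor
  · intro h
    exact congrArg Subtype.val (pow_card_eq_one' (x := (⟨x, h⟩ : pw A hcomm q)))
  · intro h
    have h1 : Nat.Coprime q (orderOf x) :=
      (coprime_card_pw hcomm hq hexp).coprime_dvd_right (orderOf_dvd_of_pow_eq_one h)
    obtain ⟨m, hm⟩ := exists_pow_eq_self_of_coprime h1
    refine ⟨x ^ m, A.pow_mem hx m, ?_⟩
    rw [← pow_mul, mul_comm, pow_mul, hm]

end Parts

/-- The numerical data. -/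
theorem exists_tu_pow {G : Type u} [Group G] [Finite G] {A : Subgroup G}
    (hcomm : ∀ x ∈ A, ∀ y ∈ A, x * y = y * x) {q s k : ℕ} (hq : q.Prime)
    (hG : Nat.card G = s ^ 2) (hidx : A.index = q ^ k)
    (hexp : ∀ x ∈ A, x ^ (q ^ 2) = 1 → x ^ q = 1) :
    ∃ t u b : ℕ, 0 < t ∧ 0 < u ∧ Nat.card (pw A hcomm q) = t ^ 2 ∧ s = t * u ∧ u = q ^ b ∧
      Nat.Coprime t u := by
  obtain ⟨c, hc⟩ := card_tor hcomm (q := q) hq
  have h1 := card_tor_mul_card_pw hcomm (q := q)
  have h2 := Subgroup.card_mul_index A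
  have hcop := coprime_card_pw hcomm hq hexp
  set K := Nat.card (pw A hcomm q)
  have h3 : K * q ^ (c + k) = s ^ 2 := by
    rw [← hG, ← h2, ← h1, hidx, hc]
    ring
  have hs : s ≠ 0 := by
    rintro rfl
    exact Nat.card_pos.ne' hG
  -- split s
  set u := q ^ (s.factorization q) with hu
  set t := s / u with ht
  have hst : t * u = s := Nat.div_mul_cancel (Nat.ordProj_dvd s q)
  have hcop2 : Nat.Coprime q t := Nat.coprime_ordCompl hq hs
  have h4 : K * q ^ (c + k) = t ^ 2 * u ^ 2 := by rw [h3, ← hst, mul_pow]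
  have hKt : K ∣ t ^ 2 := by
    have h5 : Nat.Coprime K (u ^ 2) := by
      rw [hu, ← pow_mul]
      exact (Nat.Coprime.pow_left _ hcop).symm
    exact h5.dvd_of_dvd_mul_right (h4 ▸ Dvd.intro _ rfl)
  have htK : t ^ 2 ∣ K := by
    have h5 : Nat.Coprime (t ^ 2) (q ^ (c + k)) := (Nat.Coprime.pow _ _ hcop2).symm
    exact h5.dvd_of_dvd_mul_right (h4 ▸ Dvd.intro _ rfl)
  have hupos : 0 < u := pow_pos hq.pos _
  refine ⟨t, u, _, ?_, hupos, Nat.dvd_antisymm hKt htK, hst.symm, hu, ?_⟩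
  · rcases Nat.eq_zero_or_pos t with h0 | h0
    · exfalso
      apply hs
      rw [← hst, h0, zero_mul]
    · exact h0
  · exact (Nat.Coprime.pow_left _ hcop2).symm

theorem exists_tu {G : Type u} [Group G] [Finite G] {A : Subgroup G}
    (hcomm : ∀ x ∈ A, ∀ y ∈ A, x * y = y * x) {q s : ℕ} (hq : q.Prime)
    (hG : Nat.card G = s ^ 2) (hidx : A.index = q)
    (hexp : ∀ x ∈ A, x ^ (q ^ 2) = 1 → x ^ q = 1) :
    ∃ t u b : ℕ, 0 < t ∧ 0 < u ∧ Nat.card (pw A hcomm q) = t ^ 2 ∧ s = t * u ∧ u = q ^ b ∧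
      Nat.Coprime t u :=
  exists_tu_pow hcomm hq hG (hidx.trans (pow_one q).symm) hexp

theorem split_mul {a b c d : ℕ} (h : a * b = c * d) (h1 : Nat.Coprime a d)
    (h2 : Nat.Coprime c b) : a = c ∧ b = d := by
  have h3 : a ∣ c := h1.dvd_of_dvd_mul_right (h ▸ Dvd.intro _ rfl)
  have h4 : c ∣ a := h2.dvd_of_dvd_mul_right (h ▸ Dvd.intro _ rfl)
  have h5 := Nat.dvd_antisymm h3 h4
  refine ⟨h5, ?_⟩
  subst h5
  rcases Nat.eq_zero_or_pos a with h0 | h0
  · subst h0
    simp only [Nat.Coprime, Nat.gcd_zero_left] at h1 h2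
    rw [h1, h2]
  · exact Nat.eq_of_mul_eq_mul_left h0 h

end Pool.Agent.PCPem
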