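import Mathlib

/-!
# Nilpotent endomorphisms: equivariant maps and complements
-/

set_option autoImplicit false

namespace Pool.Agent.PCPem

open Finset

variable {K B W V : Type*} [Field K] [AddCommGroup B] [Module K B] [AddCommGroup W] [Module K W]
  [AddCommGroup V] [Module K V]

/-- If `x ^ o β` is not in the image of `x ^ (o + 1)` there is an equivariant map which takes `β`
to any given `w` with `y ^ (o + 1) w = 0`, up to an element `y g`. -/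
theorem exists_hom (x : Module.End K B) (y : Module.End K W) (o : ℕ) (β : B)
    (h1 : ∀ b, (x ^ (o + 1)) b ≠ (x ^ o) β) (w : W) (hw : (y ^ (o + 1)) w = 0) :
    ∃ (φ : B →ₗ[K] W) (g : W), (∀ b, φ (x b) = y (φ b)) ∧ φ β = w + y g := by
  obtain ⟨f, hf, hker⟩ := Submodule.exists_le_ker_of_notMem (K := K)
    (p := LinearMap.range (x ^ (o + 1))) (v := (x ^ o) β) (by
      rintro ⟨b, hb⟩
      exact h1 b hb)
  obtain ⟨l, hl1, hl0⟩ : ∃ l : B →ₗ[K] K, l ((x ^ o) β) = 1 ∧ ∀ b, l ((x ^ (o + 1)) b) = 0 := by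
    refine ⟨(f ((x ^ o) β))⁻¹ • f, ?_, fun b => ?_⟩
    · simp [hf]
    · have : f ((x ^ (o + 1)) b) = 0 := hker ⟨b, rfl⟩
      simp [this]
  let φ : B →ₗ[K] W := ∑ j ∈ range (o + 1), (l ∘ₗ (x ^ (o - j))).smulRight ((y ^ j) w)
  have hφ : ∀ b, φ b = ∑ j ∈ range (o + 1), l ((x ^ (o - j)) b) • (y ^ j) w := by
    intro b
    simp [φ, LinearMap.sum_apply]
  refine ⟨φ, ∑ j ∈ range o, l ((x ^ (o - (j + 1))) β) • (y ^ j) w, fun b => ?_, ?_⟩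
  · rw [hφ, hφ, map_sum, sum_range_succ', sum_range_succ]
    have e1 : l ((x ^ (o - 0)) (x b)) = 0 := by
      rw [Nat.sub_zero, ← Module.End.mul_apply, ← pow_succ]
      exact hl0 b
    have e2 : y (l ((x ^ (o - o)) b) • (y ^ o) w) = 0 := by
      rw [map_smul, ← Module.End.mul_apply, ← pow_succ', hw, smul_zero]
    rw [e1, e2, zero_smul]
    congr 1
    refine sum_congr rfl fun j hj => ?_
    rw [mem_range] at hj
    rw [map_smul, ← Module.End.mul_apply, ← Module.End.mul_apply, ← pow_succ', ← pow_succ]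
    have : o - (j + 1) + 1 = o - j := by omega
    rw [this]
  · rw [hφ, sum_range_succ']
    simp only [Nat.sub_zero, pow_zero, Module.End.one_apply, hl1, one_smul]
    rw [add_comm, map_sum]
    congr 1
    refine sum_congr rfl fun j _ => ?_
    rw [map_smul, ← Module.End.mul_apply, ← pow_succ']

/-- The graph of a map `B₂ → B₁`, together with one more vector, is a complement of `B₁`. -/
theorem graph_compl (B₁ B₂ : Submodule K V) (hd : ∀ v, v ∈ B₁ → v ∈ B₂ → v = 0) (e e' : V)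
    (he : e ∉ B₁ ⊔ B₂) (htop : B₁ ⊔ B₂ ⊔ K ∙ e = ⊤) (hee : e' - e ∈ B₁ ⊔ B₂)
    (φ : B₂ →ₗ[K] B₁) :
    let N := LinearMap.range (B₂.subtype - B₁.subtype ∘ₗ φ) ⊔ K ∙ e'
    (∀ v, v ∈ B₁ → v ∈ N → v = 0) ∧ B₁ ⊔ N = ⊤ ∧ e' ∈ N ∧
      (Function.Injective φ → ∀ v, v ∈ B₂ → v ∈ N → v = 0) := by
  intro N
  have he' : e' ∉ B₁ ⊔ B₂ := fun h => he (by simpa using sub_mem h hee)
  have hN : ∀ v, v ∈ N ↔ ∃ (b : B₂) (c : K), v = b - φ b + c • e' := by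
    intro v
    rw [Submodule.mem_sup]
    constructor
    · rintro ⟨_, ⟨b, rfl⟩, z, hz, rfl⟩
      obtain ⟨c, rfl⟩ := Submodule.mem_span_singleton.1 hz
      exact ⟨b, c, rfl⟩
    · rintro ⟨b, c, rfl⟩
      exact ⟨_, ⟨b, rfl⟩, c • e', Submodule.mem_span_singleton.2 ⟨c, rfl⟩, rfl⟩
  have hc : ∀ (b : B₂) (c : K), (b : V) - φ b + c • e' ∈ B₁ ⊔ B₂ → c = 0 := by
    intro b c h
    by_contra hc
    apply he'
    have h1 : (b : V) - φ b ∈ B₁ ⊔ B₂ :=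
      sub_mem ((le_sup_right : B₂ ≤ B₁ ⊔ B₂) b.2) ((le_sup_left : B₁ ≤ B₁ ⊔ B₂) (φ b).2)
    have h2 : c • e' ∈ B₁ ⊔ B₂ := by
      have := sub_mem h h1
      rwa [add_sub_cancel_left] at this
    have := (B₁ ⊔ B₂).smul_mem c⁻¹ h2
    rwa [smul_smul, inv_mul_cancel₀ hc, one_smul] at this
  refine ⟨?_, ?_, ?_, ?_⟩
  · intro v hv1 hvN
    obtain ⟨b, c, rfl⟩ := (hN v).1 hvN
    have c0 := hc b c ((le_sup_left : B₁ ≤ B₁ ⊔ B₂) hv1)
    subst c0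
    rw [zero_smul, add_zero] at hv1 ⊢
    have hb : (b : V) ∈ B₁ := by
      have := add_mem hv1 (φ b).2
      rwa [sub_add_cancel] at this
    have hb0 : b = 0 := Subtype.ext (hd _ hb b.2)
    simp [hb0]
  · rw [eq_top_iff, ← htop]
    refine sup_le (sup_le le_sup_left ?_) ?_
    · intro b hb
      have h1 : b - φ ⟨b, hb⟩ ∈ N := (hN _).2 ⟨⟨b, hb⟩, 0, by simp⟩
      have h2 := add_mem ((le_sup_right : N ≤ B₁ ⊔ N) h1)
        ((le_sup_left : B₁ ≤ B₁ ⊔ N) (φ ⟨b, hb⟩).2)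
      rwa [sub_add_cancel] at h2
    · rw [Submodule.span_singleton_le_iff_mem]
      have h1 : e' ∈ B₁ ⊔ N := (le_sup_right : N ≤ B₁ ⊔ N) ((hN _).2 ⟨0, 1, by simp⟩)
      have h2 : B₁ ⊔ B₂ ≤ B₁ ⊔ N := by
        refine sup_le le_sup_left ?_
        intro b hb
        have h1 : b - φ ⟨b, hb⟩ ∈ N := (hN _).2 ⟨⟨b, hb⟩, 0, by simp⟩
        have h2 := add_mem ((le_sup_right : N ≤ B₁ ⊔ N) h1)
          ((le_sup_left : B₁ ≤ B₁ ⊔ N) (φ ⟨b, hb⟩).2)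
        rwa [sub_add_cancel] at h2
      have h3 := sub_mem h1 (h2 hee)
      rwa [sub_sub_cancel] at h3
  · exact (hN _).2 ⟨0, 1, by simp⟩
  · intro hinj v hv2 hvN
    obtain ⟨b, c, rfl⟩ := (hN v).1 hvN
    have c0 := hc b c ((le_sup_right : B₂ ≤ B₁ ⊔ B₂) hv2)
    subst c0
    rw [zero_smul, add_zero] at hv2 ⊢
    have hb : (φ b : V) ∈ B₂ := by
      have := sub_mem b.2 hv2
      rwa [sub_sub_cancel] at this
    have hb0 : φ b = 0 := Subtype.ext (hd _ (φ b).2 hb)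
    have : b = 0 := hinj (by rw [hb0, map_zero])
    simp [this]

/-- One of the two summands has an invariant complement. -/
theorem exists_compl_aux (x : Module.End K V) (B₁ B₂ : Submodule K V) (hx1 : ∀ v ∈ B₁, x v ∈ B₁)
    (hx2 : ∀ v ∈ B₂, x v ∈ B₂) (hd : ∀ v, v ∈ B₁ → v ∈ B₂ → v = 0) (e e' : V)
    (he : e ∉ B₁ ⊔ B₂) (htop : B₁ ⊔ B₂ ⊔ K ∙ e = ⊤) (hee : e' - e ∈ B₁ ⊔ B₂) (o : ℕ) (β₁ β₂ : V)
    (h1 : β₁ ∈ B₁) (h2 : β₂ ∈ B₂) (hxe : x e' = β₁ + β₂) (ho1 : (x ^ (o + 1)) β₁ = 0)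
    (ho2 : ∀ b ∈ B₂, (x ^ (o + 1)) b ≠ (x ^ o) β₂) :
    ∃ (e'' : V) (N : Submodule K V), e'' - e ∈ B₁ ⊔ B₂ ∧ (∀ v ∈ N, x v ∈ N) ∧
      (∀ v, v ∈ B₁ → v ∈ N → v = 0) ∧ B₁ ⊔ N = ⊤ ∧ e'' ∈ N := by
  have hpow : ∀ (B : Submodule K V) (hx : ∀ v ∈ B, x v ∈ B) (n : ℕ) (b : B),
      (((x.restrict hx) ^ n) b : V) = (x ^ n) b := by
    intro B hx n b
    induction n generalizing b with
    | zero => simp
    | succ n ih =>
      rw [pow_succ, Module.End.mul_apply, ih, pow_succ, Module.End.mul_apply]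
      rfl
  obtain ⟨φ, g, hφ, hg⟩ := exists_hom (x.restrict hx2) (x.restrict hx1) o ⟨β₂, h2⟩ (by
      intro b hb
      apply ho2 b b.2
      have := congrArg Subtype.val hb
      rwa [hpow, hpow] at this) (-⟨β₁, h1⟩) (by
      apply Subtype.ext
      rw [hpow]
      simp [ho1])
  have hee' : e' - g - e ∈ B₁ ⊔ B₂ := by
    have := sub_mem hee ((le_sup_left : B₁ ≤ B₁ ⊔ B₂) g.2)
    rwa [show e' - (g : V) - e = e' - e - g by abel]
  obtain ⟨hN1, hN2, hN3, -⟩ := graph_compl B₁ B₂ hd e (e' - g) he htop hee' φ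
  refine ⟨e' - g, _, hee', ?_, hN1, hN2, hN3⟩
  intro v hv
  rw [Submodule.mem_sup] at hv
  obtain ⟨_, ⟨b, rfl⟩, z, hz, rfl⟩ := hv
  obtain ⟨c, rfl⟩ := Submodule.mem_span_singleton.1 hz
  have hφ' : ∀ b : B₂, x (φ b) = φ ⟨x b, hx2 b b.2⟩ := fun b => (congrArg Subtype.val (hφ b)).symm
  rw [map_add]
  refine add_mem ?_ ?_
  · refine (le_sup_left : LinearMap.range (B₂.subtype - B₁.subtype ∘ₗ φ) ≤ _) ?_
    refine ⟨⟨x b, hx2 b b.2⟩, ?_⟩
    simp [hφ']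
  · rw [map_smul]
    refine Submodule.smul_mem _ _ ?_
    refine (le_sup_left : LinearMap.range (B₂.subtype - B₁.subtype ∘ₗ φ) ≤ _) ?_
    refine ⟨⟨β₂, h2⟩, ?_⟩
    have hg' := congrArg Subtype.val hg
    simp only [Submodule.coe_add, Submodule.coe_neg, LinearMap.restrict_apply] at hg'
    simp only [LinearMap.sub_apply, Submodule.subtype_apply, LinearMap.comp_apply, map_sub, hxe,
      hg']
    abel

/-- One of the two summands has an invariant complement, which contains a vector of `e + B₁ + B₂`. -/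
theorem exists_compl (x : Module.End K V) (n : ℕ) (hn : x ^ n = 0) (B₁ B₂ : Submodule K V)
    (hx1 : ∀ v ∈ B₁, x v ∈ B₁) (hx2 : ∀ v ∈ B₂, x v ∈ B₂)
    (hd : ∀ v, v ∈ B₁ → v ∈ B₂ → v = 0) (e : V)
    (he : e ∉ B₁ ⊔ B₂) (htop : B₁ ⊔ B₂ ⊔ K ∙ e = ⊤) (hxe : x e ∈ B₁ ⊔ B₂) :
    ∃ (e'' : V) (N : Submodule K V), e'' - e ∈ B₁ ⊔ B₂ ∧ (∀ v ∈ N, x v ∈ N) ∧ e'' ∈ N ∧
      (((∀ v, v ∈ B₁ → v ∈ N → v = 0) ∧ B₁ ⊔ N = ⊤) ∨
        ((∀ v, v ∈ B₂ → v ∈ N → v = 0) ∧ B₂ ⊔ N = ⊤)) := by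
  classical
  have hex : ∃ k, ∃ e', e' - e ∈ B₁ ⊔ B₂ ∧ (x ^ k) e' = 0 := ⟨n, e, by simp, by simp [hn]⟩
  obtain ⟨e', hee, hk⟩ := Nat.find_spec hex
  have hmin := fun m => Nat.find_min hex (m := m)
  set k := Nat.find hex with hkdef
  have hxB : ∀ v ∈ B₁ ⊔ B₂, x v ∈ B₁ ⊔ B₂ := by
    intro v hv
    obtain ⟨a, ha, b, hb, rfl⟩ := Submodule.mem_sup.1 hv
    rw [map_add]
    exact Submodule.add_mem_sup (hx1 a ha) (hx2 b hb)
  have he' : e' ∉ B₁ ⊔ B₂ := fun h => he (by simpa using sub_mem h hee)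
  have hk0 : k ≠ 0 := by
    intro h0
    rw [h0, pow_zero, Module.End.one_apply] at hk
    rw [hk] at he'
    exact he' (zero_mem _)
  obtain ⟨o, ho⟩ := Nat.exists_eq_succ_of_ne_zero hk0
  have hxe' : x e' ∈ B₁ ⊔ B₂ := by
    have := add_mem (hxB _ hee) hxe
    rwa [← map_add, sub_add_cancel] at this
  obtain ⟨β₁, h1, β₂, h2, hβ⟩ := Submodule.mem_sup.1 hxe'
  have hpow : ∀ (B : Submodule K V) (_ : ∀ v ∈ B, x v ∈ B) (n : ℕ), ∀ b ∈ B, (x ^ n) b ∈ B := by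
    intro B hx n
    induction n with
    | zero => intro b hb; simpa using hb
    | succ n ih =>
      intro b hb
      rw [pow_succ, Module.End.mul_apply]
      exact ih _ (hx b hb)
  have hβ0 : (x ^ o) β₁ = 0 ∧ (x ^ o) β₂ = 0 := by
    have h3 : (x ^ o) β₁ + (x ^ o) β₂ = 0 := by
      rw [← map_add, hβ, ← Module.End.mul_apply, ← pow_succ]
      rw [ho] at hk
      exact hk
    have h4 : (x ^ o) β₁ ∈ B₂ := by
      rw [eq_neg_of_add_eq_zero_left h3]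
      exact neg_mem (hpow B₂ hx2 o β₂ h2)
    have h5 := hd _ (hpow B₁ hx1 o β₁ h1) h4
    rw [h5, zero_add] at h3
    exact ⟨h5, h3⟩
  rcases Nat.eq_zero_or_pos o with ho0 | ho0
  · -- `x e' = 0`
    subst ho0
    have hxe0 : x e' = 0 := by
      rw [← hβ]
      have h3 := hβ0.1
      have h4 := hβ0.2
      rw [pow_zero, Module.End.one_apply] at h3 h4
      rw [h3, h4, add_zero]
    obtain ⟨hN1, hN2, hN3, -⟩ := graph_compl B₁ B₂ hd e e' he htop hee 0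
    refine ⟨e', _, hee, ?_, hN3, Or.inl ⟨hN1, hN2⟩⟩
    intro v hv
    rw [Submodule.mem_sup] at hv
    obtain ⟨_, ⟨b, rfl⟩, z, hz, rfl⟩ := hv
    obtain ⟨c, rfl⟩ := Submodule.mem_span_singleton.1 hz
    rw [map_add, map_smul, hxe0, smul_zero, add_zero]
    refine (le_sup_left : LinearMap.range (B₂.subtype - B₁.subtype ∘ₗ (0 : B₂ →ₗ[K] B₁)) ≤ _) ?_
    exact ⟨⟨x b, hx2 b b.2⟩, by simp⟩
  · obtain ⟨q, rfl⟩ : ∃ q, o = q + 1 := ⟨o - 1, by omega⟩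
    by_cases hcase : ∀ b ∈ B₂, (x ^ (q + 1)) b ≠ (x ^ q) β₂
    · obtain ⟨e'', N, ha, hb, hc, hd', he''⟩ := exists_compl_aux x B₁ B₂ hx1 hx2 hd e e' he htop
        hee q β₁ β₂ h1 h2 hβ.symm hβ0.1 hcase
      exact ⟨e'', N, ha, hb, he'', Or.inl ⟨hc, hd'⟩⟩
    · push Not at hcase
      obtain ⟨γ₂, hγ2, hγ2'⟩ := hcase
      have hcase' : ∀ b ∈ B₁, (x ^ (q + 1)) b ≠ (x ^ q) β₁ := by
        intro γ₁ hγ1 hγ1'
        apply hmin (q + 1) (by omega)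
        refine ⟨e' - γ₁ - γ₂, ?_, ?_⟩
        · have := sub_mem hee (Submodule.add_mem_sup hγ1 hγ2)
          rwa [show e' - γ₁ - γ₂ - e = e' - e - (γ₁ + γ₂) by abel]
        · rw [map_sub, map_sub, hγ1', hγ2', pow_succ, Module.End.mul_apply, ← hβ, map_add]
          abel
      have he2 : e ∉ B₂ ⊔ B₁ := by rwa [sup_comm]
      have htop2 : B₂ ⊔ B₁ ⊔ K ∙ e = ⊤ := by rwa [sup_comm B₂ B₁]
      have hee2 : e' - e ∈ B₂ ⊔ B₁ := by rwa [sup_comm]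
      obtain ⟨e'', N, ha, hb, hc, hd', he''⟩ := exists_compl_aux x B₂ B₁ hx2 hx1
        (fun v a b => hd v b a) e e' he2 htop2 hee2 q β₂ β₁ h2 h1 (by rw [← hβ, add_comm]) hβ0.2
        hcase'
      refine ⟨e'', N, by rwa [sup_comm], hb, he'', Or.inr ⟨hc, hd'⟩⟩

end Pool.Agent.PCPem
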