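import Pool.Agent.Lib_MP_53dcbc_em.Suff

/-!
# Groups with an elementary abelian subgroup of prime index: the condition is necessary
-/

set_option autoImplicit false

namespace Pool.Agent.PCPem

open Finset Module
open scoped commutatorElement

theorem not_both_le {G : Type*} [Group G] [Finite G] {A U W : Subgroup G} {s p : ℕ}
    (hp : p.Prime) (hidx : A.index = p) (hs : Nat.card G = s ^ 2) (hU : Nat.card U = s)
    (hW : Nat.card W = s) (hUW : U ⊓ W = ⊥) (h1 : U ≤ A) (h2 : W ≤ A) : False := by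
  have hinj := Subgroup.mul_injective_of_disjoint (disjoint_iff.2 hUW)
  let f : U × W → A := fun g => ⟨g.1 * g.2, A.mul_mem (h1 g.1.2) (h2 g.2.2)⟩
  have hf : Function.Injective f := fun a b h => hinj (congrArg Subtype.val h)
  have h3 := Nat.card_le_card_of_injective f hf
  rw [Nat.card_prod, hU, hW] at h3
  have h4 := Subgroup.card_mul_index A
  rw [hidx, hs] at h4
  have h5 := Nat.card_pos (α := A)
  have h6 := hp.two_le
  nlinarith

theorem card_inf_mul {G : Type*} [Group G] [Finite G] {A U : Subgroup G} [A.Normal] {p : ℕ}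
    (hp : p.Prime) (hidx : A.index = p) (h : ¬ U ≤ A) :
    Nat.card (U ⊓ A : Subgroup G) * p = Nat.card U := by
  have h1 := Subgroup.card_mul_index (A.subgroupOf U)
  have h2 : Nat.card (A.subgroupOf U) = Nat.card (U ⊓ A : Subgroup G) := by
    rw [← Subgroup.inf_subgroupOf_left, Nat.card_congr (Subgroup.subgroupOfEquivOfLe
      inf_le_left).toEquiv]
  have h3 : (A.subgroupOf U).index = p := by
    have h4 : A.relIndex U ∣ A.index := Subgroup.relIndex_dvd_index_of_normal A _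
    rw [hidx] at h4
    rcases (Nat.dvd_prime hp).1 h4 with h5 | h5
    · exfalso
      exact h (Subgroup.relIndex_eq_one.1 h5)
    · exact h5
  rw [h2, h3] at h1
  exact h1

variable {p : ℕ} {V G : Type*} [AddCommGroup V] [Module (ZMod p) V] [Group G] {A : Subgroup G}

theorem Emb.conj_mul (E : Emb p V A) {t : G} {T : Module.End (ZMod p) V}
    (hT : ∀ v, E.ι (T v) = t * E.ι v * t⁻¹) (a : V) (v : V) :
    E.ι (T v) = (E.ι a * t) * E.ι v * (E.ι a * t)⁻¹ := by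
  have h1 : (E.ι a * t) * E.ι v * (E.ι a * t)⁻¹ = E.ι a * (t * E.ι v * t⁻¹) * (E.ι a)⁻¹ := by
    group
  rw [h1, ← hT, E.comm (E.mem_A a) (E.mem_A _), mul_inv_cancel_right]

theorem xe_mem {K V : Type*} [Field K] [AddCommGroup V] [Module K V] (x : Module.End K V) (n : ℕ)
    (hx : x ^ n = 0) (W : Submodule K V) (hW : ∀ v ∈ W, x v ∈ W) (e : V) (he : e ∉ W)
    (htop : W ⊔ K ∙ e = ⊤) : x e ∈ W := by
  have h1 : x e ∈ W ⊔ K ∙ e := by rw [htop]; trivial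
  obtain ⟨w, hw, z, hz, hwz⟩ := Submodule.mem_sup.1 h1
  obtain ⟨c, rfl⟩ := Submodule.mem_span_singleton.1 hz
  have h2 : ∀ k : ℕ, (x ^ k) e - c ^ k • e ∈ W := by
    intro k
    induction k with
    | zero => simp
    | succ k ih =>
      have h3 := W.add_mem (hW _ ih) (W.smul_mem (c ^ k) hw)
      have h4 : (x ^ (k + 1)) e - c ^ (k + 1) • e = x ((x ^ k) e - c ^ k • e) + c ^ k • w := by
        rw [map_sub, map_smul, ← hwz, pow_succ' x, Module.End.mul_apply, smul_add, smul_smul,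
          ← pow_succ]
        abel
      rw [h4]
      exact h3
  have h3 := h2 n
  rw [hx, LinearMap.zero_apply, zero_sub, Submodule.neg_mem_iff] at h3
  by_cases hc : c = 0
  · rw [← hwz, hc, zero_smul, add_zero]
    exact hw
  · exfalso
    apply he
    have := W.smul_mem (c ^ n)⁻¹ h3
    rwa [smul_smul, inv_mul_cancel₀ (pow_ne_zero _ hc), one_smul] at this

theorem necessary_two [Finite G] [Fact p.Prime] (E : Emb p V A) [A.Normal] (hidx : A.index = p)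
    {s : ℕ} (hs : Nat.card G = s ^ 2) (U₁ U₂ : Subgroup G) (hU1 : Nat.card U₁ = s)
    (hU2 : Nat.card U₂ = s) (h12 : U₁ ⊓ U₂ = ⊥) (h1 : ¬ U₁ ≤ A) (h2 : ¬ U₂ ≤ A) :
    ∃ M N : Subgroup G, M.Normal ∧ N.Normal ∧ M ⊓ N = ⊥ ∧ M ⊔ N = A ∧ Nat.card M * p = s ∧
      Nat.card N = s ∧ ∃ t, t ∉ A ∧ (t ^ p = 1 ∨ ((∃ m ∈ M, t ^ p = (fun y => ⁅t, y⁆)^[p - 2] m) ∧
        ∃ n ∈ N, (fun y => ⁅t, y⁆)^[p - 1] n ≠ 1)) := by
  have hp : p.Prime := Fact.out
  have hfin : Finite V := Finite.of_injective E.ι E.inj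
  obtain ⟨t₁, ht1, ht1A⟩ := SetLike.not_le_iff_exists.1 h1
  obtain ⟨u₂, hu2, hu2A⟩ := SetLike.not_le_iff_exists.1 h2
  obtain ⟨k, hk⟩ := exists_zpow_mul_inv_mem hidx hu2A t₁
  obtain ⟨e, he⟩ := (E.mem _).1 hk
  obtain ⟨t₂, ht2, ht2e⟩ : ∃ t₂ ∈ U₂, t₂ = E.ι e * t₁ := ⟨u₂ ^ k, U₂.zpow_mem hu2 k, by
    rw [he, inv_mul_cancel_right]⟩
  obtain ⟨T, hT⟩ := E.exists_T t₁
  have hT2 : ∀ v, E.ι (T v) = t₂ * E.ι v * t₂⁻¹ := by
    rw [ht2e]
    exact E.conj_mul hT e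
  have hst1 : ∀ v ∈ E.sm U₁, (T - 1) v ∈ E.sm U₁ := by
    intro v hv
    rw [E.mem_sm] at hv ⊢
    rw [← E.comm_t hT, commutatorElement_def]
    exact U₁.mul_mem (U₁.mul_mem (U₁.mul_mem ht1 hv) (U₁.inv_mem ht1)) (U₁.inv_mem hv)
  have hst2 : ∀ v ∈ E.sm U₂, (T - 1) v ∈ E.sm U₂ := by
    intro v hv
    rw [E.mem_sm] at hv ⊢
    rw [← E.comm_t hT2, commutatorElement_def]
    exact U₂.mul_mem (U₂.mul_mem (U₂.mul_mem ht2 hv) (U₂.inv_mem ht2)) (U₂.inv_mem hv)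
  have hd : ∀ v, v ∈ E.sm U₁ → v ∈ E.sm U₂ → v = 0 := by
    intro v h1 h2
    apply E.eq_one
    have : E.ι v ∈ U₁ ⊓ U₂ := ⟨h1, h2⟩
    rwa [h12, Subgroup.mem_bot] at this
  have he' : e ∉ E.sm U₁ ⊔ E.sm U₂ := by
    intro h
    obtain ⟨b₁, hb1, b₂, hb2, rfl⟩ := Submodule.mem_sup.1 h
    apply ht1A
    have h3 : E.ι b₁ * t₁ = (E.ι b₂)⁻¹ * t₂ := by
      rw [ht2e, add_comm, E.add, mul_assoc, inv_mul_cancel_left]
    have h4 : E.ι b₁ * t₁ ∈ U₁ ⊓ U₂ := by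
      refine ⟨U₁.mul_mem hb1 ht1, ?_⟩
      rw [h3]
      exact U₂.mul_mem (U₂.inv_mem hb2) ht2
    rw [h12, Subgroup.mem_bot] at h4
    rw [eq_inv_of_mul_eq_one_right h4]
    exact A.inv_mem (E.mem_A b₁)
  have hc1 : Nat.card (E.sm U₁) * p = s := by
    rw [← E.card_gp, E.gp_sm, card_inf_mul hp hidx h1, hU1]
  have hc2 : Nat.card (E.sm U₂) * p = s := by
    rw [← E.card_gp, E.gp_sm, card_inf_mul hp hidx h2, hU2]
  have hcA : Nat.card V * p = s ^ 2 := by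
    rw [← E.card_A, ← hidx, Subgroup.card_mul_index, hs]
  have hcV : Nat.card V = Nat.card (E.sm U₁) * Nat.card (E.sm U₂) * p := by
    refine Nat.eq_of_mul_eq_mul_right hp.pos ?_
    rw [hcA, pow_two]
    nth_rewrite 1 [← hc1]
    rw [← hc2]
    ring
  have htop : E.sm U₁ ⊔ E.sm U₂ ⊔ (ZMod p) ∙ e = ⊤ := by
    apply Submodule.eq_top_of_finrank_eq
    rw [finrank_sup_three _ _ hd e he']
    rw [card_eq (E.sm U₁), card_eq (E.sm U₂), card_eq' p V, ← pow_add, ← pow_succ] at hcV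
    exact (Nat.pow_right_injective hp.two_le hcV).symm
  have hxp : (T - 1) ^ p = 0 := by
    refine E.x_pow_p hT ?_
    have := Subgroup.pow_index_mem A t₁
    rwa [hidx] at this
  set x : Module.End (ZMod p) V := T - 1 with hxdef
  have hxW : ∀ v ∈ E.sm U₁ ⊔ E.sm U₂, x v ∈ E.sm U₁ ⊔ E.sm U₂ := by
    intro v hv
    obtain ⟨a, ha, b, hb, rfl⟩ := Submodule.mem_sup.1 hv
    rw [map_add]
    exact Submodule.add_mem_sup (hst1 a ha) (hst2 b hb)
  have hxe := xe_mem x p hxp _ hxW e he' htop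
  obtain ⟨e'', N, hee, hNx, heN, hN⟩ := exists_compl x p hxp (E.sm U₁) (E.sm U₂) hst1 hst2 hd e he'
    htop hxe
  obtain ⟨γ₁, hγ1, γ₂, hγ2, hγ⟩ := Submodule.mem_sup.1 hee
  -- the new elements
  have ht1' : E.ι (-γ₁) * t₁ ∈ U₁ := U₁.mul_mem (E.neg γ₁ ▸ U₁.inv_mem hγ1) ht1
  have ht2' : E.ι γ₂ * t₂ ∈ U₂ := U₂.mul_mem hγ2 ht2
  have hT1' := E.conj_mul hT (-γ₁)
  have hT2' := E.conj_mul hT2 γ₂
  have ht1A' : E.ι (-γ₁) * t₁ ∉ A := fun h => ht1A ((A.mul_mem_cancel_left (E.mem_A _)).1 h)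
  have ht2A : t₂ ∉ A := by
    rw [ht2e]
    exact fun h => ht1A ((A.mul_mem_cancel_left (E.mem_A _)).1 h)
  have ht2A' : E.ι γ₂ * t₂ ∉ A := fun h => ht2A ((A.mul_mem_cancel_left (E.mem_A _)).1 h)
  have ht12 : E.ι γ₂ * t₂ = E.ι e'' * (E.ι (-γ₁) * t₁) := by
    rw [ht2e, ← mul_assoc, ← mul_assoc, ← E.add, ← E.add]
    congr 2
    rw [eq_sub_iff_add_eq] at hγ
    rw [← hγ]
    abel
  set t₁' := E.ι (-γ₁) * t₁ with ht1def
  set t₂' := E.ι γ₂ * t₂ with ht2def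
  have hxe'' : x e'' ∈ E.sm U₁ ⊔ E.sm U₂ := by
    have := add_mem (hxW _ hee) hxe
    rwa [← map_add, sub_add_cancel] at this
  obtain ⟨β₁, hβ1, β₂, hβ2, hβ⟩ := Submodule.mem_sup.1 hxe''
  have hpA : ∀ t : G, t ^ p ∈ A := by
    intro t
    have := Subgroup.pow_index_mem A t
    rwa [hidx] at this
  obtain ⟨c₁, hc1'⟩ := (E.mem _).1 (hpA t₁')
  obtain ⟨c₂, hc2'⟩ := (E.mem _).1 (hpA t₂')
  have hc1U : c₁ ∈ E.sm U₁ := by
    rw [E.mem_sm, hc1']
    exact U₁.pow_mem ht1' p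
  have hc2U : c₂ ∈ E.sm U₂ := by
    rw [E.mem_sm, hc2']
    exact U₂.pow_mem ht2' p
  have hcc : c₂ = (x ^ (p - 1)) e'' + c₁ := by
    apply E.inj
    rw [hc2', ht12, E.mul_t_pow_p hT1', E.add, hc1']
  have hp2 : p - 1 = p - 2 + 1 := by have := hp.two_le; omega
  have hxpow : (x ^ (p - 1)) e'' = (x ^ (p - 2)) β₁ + (x ^ (p - 2)) β₂ := by
    rw [hp2, pow_succ, Module.End.mul_apply, ← hβ, map_add]
  have hpow : ∀ (B : Submodule (ZMod p) V), (∀ v ∈ B, x v ∈ B) → ∀ k : ℕ, ∀ v ∈ B,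
      (x ^ k) v ∈ B := by
    intro B hB k
    induction k with
    | zero => intro v hv; simpa using hv
    | succ k ih =>
      intro v hv
      rw [pow_succ, Module.End.mul_apply]
      exact ih _ (hB v hv)
  have hz : c₁ + (x ^ (p - 2)) β₁ = 0 := by
    apply hd
    · exact add_mem hc1U (hpow _ hst1 _ _ hβ1)
    · have : c₁ + (x ^ (p - 2)) β₁ = c₂ - (x ^ (p - 2)) β₂ := by
        rw [hcc, hxpow]
        abel
      rw [this]
      exact sub_mem hc2U (hpow _ hst2 _ _ hβ2)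
  have hz1 : c₁ = (x ^ (p - 2)) (-β₁) := by
    rw [map_neg]
    exact eq_neg_of_add_eq_zero_left hz
  have hz2 : c₂ = (x ^ (p - 2)) β₂ := by
    rw [hcc, hxpow]
    have : (x ^ (p - 2)) β₁ + (x ^ (p - 2)) β₂ + c₁ = (c₁ + (x ^ (p - 2)) β₁) +
        (x ^ (p - 2)) β₂ := by abel
    rw [this, hz, zero_add]
  have hne : (x ^ (p - 1)) e'' = 0 → c₁ = 0 ∧ c₂ = 0 := by
    intro h0
    rw [h0, zero_add] at hcc
    have := hd c₁ hc1U (hcc ▸ hc2U)
    exact ⟨this, hcc.trans this⟩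
  have hnN := E.normal_of_conj hp hidx ht1A (E.gp_le N) (E.conj_gp hT hNx)
  have hn1 := E.normal_of_conj hp hidx ht1A (E.gp_le _) (E.conj_gp hT hst1)
  have hn2 := E.normal_of_conj hp hidx ht1A (E.gp_le _) (E.conj_gp hT hst2)
  have hs0 : 0 < s := by
    rw [← hc1]
    exact Nat.mul_pos Nat.card_pos hp.pos
  rcases hN with ⟨hN1, hN2⟩ | ⟨hN1, hN2⟩
  · refine ⟨E.gp (E.sm U₁), E.gp N, hn1, hnN, E.gp_inf_eq_bot hN1, E.gp_sup hN2, ?_, ?_, t₁', ht1A',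
      ?_⟩
    · rw [E.card_gp, hc1]
    · rw [E.card_gp]
      have h5 := card_mul_card (E.sm U₁) N hN1 hN2
      have h6 : s * Nat.card N = s * s := by
        rw [← pow_two, ← hcA, ← h5, ← hc1]
        ring
      exact Nat.eq_of_mul_eq_mul_left hs0 h6
    · by_cases h0 : (x ^ (p - 1)) e'' = 0
      · left
        rw [← hc1', (hne h0).1, E.zero]
      · right
        refine ⟨⟨E.ι (-β₁), E.ι_mem_gp.2 (neg_mem hβ1), ?_⟩, E.ι e'', E.ι_mem_gp.2 heN, ?_⟩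
        · rw [E.iter_comm hT1', ← hxdef, ← hz1, hc1']
        · rw [E.iter_comm hT1', ← hxdef]
          exact fun h => h0 (E.eq_one h)
  · refine ⟨E.gp (E.sm U₂), E.gp N, hn2, hnN, E.gp_inf_eq_bot hN1, E.gp_sup hN2, ?_, ?_, t₂', ht2A',
      ?_⟩
    · rw [E.card_gp, hc2]
    · rw [E.card_gp]
      have h5 := card_mul_card (E.sm U₂) N hN1 hN2
      have h6 : s * Nat.card N = s * s := by
        rw [← pow_two, ← hcA, ← h5, ← hc2]
        ring
      exact Nat.eq_of_mul_eq_mul_left hs0 h6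
    · by_cases h0 : (x ^ (p - 1)) e'' = 0
      · left
        rw [← hc2', (hne h0).2, E.zero]
      · right
        refine ⟨⟨E.ι β₂, E.ι_mem_gp.2 hβ2, ?_⟩, E.ι e'', E.ι_mem_gp.2 heN, ?_⟩
        · rw [E.iter_comm hT2', ← hxdef, ← hz2, hc2']
        · rw [E.iter_comm hT2', ← hxdef]
          exact fun h => h0 (E.eq_one h)

end Pool.Agent.PCPem
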