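import Pool.Agent.Lib_MP_53dcbc_em.GNec

/-!
# Groups with an elementary abelian normal subgroup and a cyclic factor group of larger order
-/

set_option autoImplicit false

namespace Pool.Agent.PCPem

open Subgroup Module
open scoped commutatorElement

universe u

/-- A nilpotent operator of a space of dimension `k` has trivial `k`-th power: relative version. -/
theorem pow_mem_of_nilpotent {K V : Type*} [Field K] [AddCommGroup V] [Module K V]
    [FiniteDimensional K V] (x : Module.End K V) (n : ℕ) (hx : x ^ n = 0) (k : ℕ) :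
    ∀ W : Submodule K V, (∀ v ∈ W, x v ∈ W) → finrank K V ≤ finrank K W + k →
      ∀ v, (x ^ k) v ∈ W := by
  induction k with
  | zero =>
    intro W _ hk v
    have h1 : W = ⊤ := Submodule.eq_top_of_finrank_eq
      (le_antisymm (Submodule.finrank_le W) (by simpa using hk))
    rw [h1]
    trivial
  | succ k ih =>
    intro W hW hk v
    by_cases hc : W.comap x = W
    · have h1 : ∀ (m : ℕ) (v : V), (x ^ m) v ∈ W → v ∈ W := by
        intro m
        induction m with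
        | zero => intro v hv; simpa using hv
        | succ m ihm =>
          intro v hv
          apply ihm
          rw [← hc]
          change x ((x ^ m) v) ∈ W
          rwa [← Module.End.mul_apply, ← pow_succ']
      apply h1 n
      rw [hx, LinearMap.zero_apply]
      exact zero_mem _
    · have h1 : W < W.comap x := lt_of_le_of_ne (fun v hv => hW v hv) (Ne.symm hc)
      have h2 := Submodule.finrank_lt_finrank_of_lt h1
      have h3 := ih (W.comap x) (fun v hv => hW _ hv) (by omega) v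
      change x ((x ^ k) v) ∈ W at h3
      rwa [← Module.End.mul_apply, ← pow_succ'] at h3

theorem geom_eq_pow {p : ℕ} [Fact p.Prime] {V : Type*} [AddCommGroup V] [Module (ZMod p) V]
    (T : Module.End (ZMod p) V) (m : ℕ) :
    ∑ i ∈ Finset.range (p ^ m), T ^ i = (T - 1) ^ (p ^ m - 1) := by
  have hp : p.Prime := Fact.out
  have h : (∑ i ∈ Finset.range (p ^ m), (Polynomial.X : Polynomial (ZMod p)) ^ i) =
      (Polynomial.X - 1) ^ (p ^ m - 1) := by
    have h1 : (∑ i ∈ Finset.range (p ^ m), (Polynomial.X : Polynomial (ZMod p)) ^ i) *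
        (Polynomial.X - 1) = (Polynomial.X - 1) ^ (p ^ m - 1) * (Polynomial.X - 1) := by
      rw [geom_sum_mul, ← pow_succ, Nat.sub_add_cancel (pow_pos hp.pos m), sub_pow_char_pow,
        one_pow]
    refine mul_right_cancel₀ ?_ h1
    rw [← Polynomial.C_1]
    exact Polynomial.X_sub_C_ne_zero 1
  have h2 := congrArg (Polynomial.aeval T) h
  simpa using h2

theorem sub_pow_eq_pow {p : ℕ} [Fact p.Prime] {V : Type*} [AddCommGroup V] [Module (ZMod p) V]
    (T : Module.End (ZMod p) V) (m : ℕ) : (T - 1) ^ (p ^ m) = T ^ (p ^ m) - 1 := by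
  have h : ((Polynomial.X : Polynomial (ZMod p)) - 1) ^ (p ^ m) = Polynomial.X ^ (p ^ m) - 1 := by
    rw [sub_pow_char_pow, one_pow]
  have h2 := congrArg (Polynomial.aeval T) h
  simpa using h2

/-- Two components which generate the factor group: impossible for large factor groups. -/
theorem no_two_of_cyclic {p : ℕ} {V G : Type u} [AddCommGroup V] [Module (ZMod p) V] [Group G]
    {A : Subgroup G} [Finite G] [Fact p.Prime] (E : Emb p V A) [A.Normal] {k : ℕ} (hk0 : k ≠ 0)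
    (hidx : A.index = p ^ k) (hk : k < p ^ (k - 1)) (g : G)
    (hg : ∀ y : G ⧸ A, y ∈ zpowers (g : G ⧸ A)) {s : ℕ} (hs : Nat.card G = s ^ 2)
    (U₁ U₂ : Subgroup G) (hU1 : Nat.card U₁ = s) (hU2 : Nat.card U₂ = s) (h12 : U₁ ⊓ U₂ = ⊥)
    (h1 : U₁ ⊔ A = ⊤) (h2 : U₂ ⊔ A = ⊤) : False := by
  have hp : p.Prime := Fact.out
  have hfin : Finite V := Finite.of_injective E.ι E.inj
  have hpick : ∀ U : Subgroup G, U ⊔ A = ⊤ → ∃ t ∈ U, t * g⁻¹ ∈ A := by
    intro U hU
    have h3 : g ∈ ((A ⊔ U : Subgroup G) : Set G) := by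
      rw [sup_comm, hU]
      trivial
    rw [Subgroup.normal_mul] at h3
    obtain ⟨a, ha, t, ht, hat⟩ := h3
    refine ⟨t, ht, ?_⟩
    have h4 : a * t = g := hat
    rw [← h4, mul_inv_rev, mul_inv_cancel_left]
    exact A.inv_mem ha
  obtain ⟨t₁, ht1, ht1g⟩ := hpick U₁ h1
  obtain ⟨t₂, ht2, ht2g⟩ := hpick U₂ h2
  have hkk : t₂ * t₁⁻¹ ∈ A := by
    have := A.mul_mem ht2g (A.inv_mem ht1g)
    rw [mul_inv_rev, inv_inv] at this
    simpa [mul_assoc] using this
  obtain ⟨e, he⟩ := (E.mem _).1 hkk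
  have ht2e : t₂ = E.ι e * t₁ := by rw [he, inv_mul_cancel_right]
  have hmk : (t₁ : G ⧸ A) = g := by
    have h3 : (t₁⁻¹ * g : G) ∈ A := by
      have h4 := (inferInstance : A.Normal).conj_mem _ ht1g t₁⁻¹
      have h5 := A.inv_mem h4
      have h6 : (t₁⁻¹ * (t₁ * g⁻¹) * t₁⁻¹⁻¹)⁻¹ = t₁⁻¹ * g := by group
      rwa [h6] at h5
    exact QuotientGroup.eq.2 h3
  have hord : orderOf (t₁ : G ⧸ A) = p ^ k := by
    rw [hmk, orderOf_eq_card_of_forall_mem_zpowers hg, ← hidx]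
    rfl
  obtain ⟨T, hT⟩ := E.exists_T t₁
  have hT2 : ∀ v, E.ι (T v) = t₂ * E.ι v * t₂⁻¹ := by
    rw [ht2e]
    exact E.conj_mul hT e
  have hst1 : ∀ v ∈ E.sm U₁, (T - 1) v ∈ E.sm U₁ := by
    intro v hv
    rw [E.mem_sm] at hv ⊢
    rw [← E.comm_t hT, commutatorElement_def]
    exact U₁.mul_mem (U₁.mul_mem (U₁.mul_mem ht1 hv) (U₁.inv_mem ht1)) (U₁.inv_mem hv)
  have hst2 : ∀ v ∈ E.sm U₂, (T - 1) v ∈ E.sm U₂ := by
    intro v hv
    rw [E.mem_sm] at hv ⊢
    rw [← E.comm_t hT2, commutatorElement_def]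
    exact U₂.mul_mem (U₂.mul_mem (U₂.mul_mem ht2 hv) (U₂.inv_mem ht2)) (U₂.inv_mem hv)
  have hcU : ∀ U : Subgroup G, U ⊔ A = ⊤ → Nat.card U = s →
      Nat.card (E.sm U) * p ^ k = s := by
    intro U hU hUs
    have h3 : A.relIndex U = p ^ k := by
      rw [← relIndex_sup_right U A, hU, relIndex_top_right, hidx]
    have h4 := Subgroup.card_mul_index (A.subgroupOf U)
    have h5 : Nat.card (A.subgroupOf U) = Nat.card (U ⊓ A : Subgroup G) := by
      rw [← Subgroup.inf_subgroupOf_left, Nat.card_congr (Subgroup.subgroupOfEquivOfLe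
        inf_le_left).toEquiv]
    have h6 : (A.subgroupOf U).index = p ^ k := h3
    rw [h5, h6, hUs] at h4
    rw [← E.card_gp, E.gp_sm, h4]
  have hc1 := hcU U₁ h1 hU1
  have hc2 := hcU U₂ h2 hU2
  have hcA : Nat.card V * p ^ k = s ^ 2 := by
    rw [← E.card_A, ← hidx, Subgroup.card_mul_index, hs]
  have hinf : E.sm U₁ ⊓ E.sm U₂ = ⊥ := by
    rw [eq_bot_iff]
    rintro v ⟨a, b⟩
    have h3 : E.ι v ∈ U₁ ⊓ U₂ := ⟨a, b⟩
    rw [h12, mem_bot] at h3
    exact E.eq_one h3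
  have hfr := Submodule.finrank_sup_add_finrank_inf_eq (E.sm U₁) (E.sm U₂)
  rw [hinf, finrank_bot, add_zero] at hfr
  have hfV : finrank (ZMod p) V = finrank (ZMod p) (E.sm U₁ ⊔ E.sm U₂ : Submodule (ZMod p) V) +
      k := by
    rw [hfr]
    have h3 : p ^ (finrank (ZMod p) V + k) = p ^ (finrank (ZMod p) (E.sm U₁) +
        finrank (ZMod p) (E.sm U₂) + k + k) := by
      rw [pow_add, ← card_eq' p V, hcA, pow_two]
      nth_rewrite 1 [← hc1]
      rw [← hc2, card_eq, card_eq]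
      ring
    have h4 := Nat.pow_right_injective hp.two_le h3
    omega
  have hpos : 0 < p ^ (k - 1) := pow_pos hp.pos _
  have htop : t₁ ^ (p ^ k) ∈ A := by
    have := Subgroup.pow_index_mem A t₁
    rwa [hidx] at this
  have hnil : (T - 1) ^ (p ^ k) = 0 := by
    rw [sub_pow_eq_pow]
    ext v
    rw [LinearMap.sub_apply, Module.End.one_apply, LinearMap.zero_apply, sub_eq_zero]
    apply E.inj
    rw [E.T_pow hT, E.comm htop (E.mem_A v), mul_inv_cancel_right]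
  have hxW : ∀ v ∈ E.sm U₁ ⊔ E.sm U₂, (T - 1) v ∈ E.sm U₁ ⊔ E.sm U₂ := by
    intro v hv
    obtain ⟨a, ha, b, hb, rfl⟩ := Submodule.mem_sup.1 hv
    rw [map_add]
    exact Submodule.add_mem_sup (hst1 a ha) (hst2 b hb)
  have hkey := pow_mem_of_nilpotent (T - 1) _ hnil (p ^ (k - 1) - 1) _ hxW (by omega) e
  obtain ⟨w₁, hw1, w₂, hw2, hw⟩ := Submodule.mem_sup.1 hkey
  have h5 : t₂ ^ (p ^ (k - 1)) = E.ι w₂ * (E.ι w₁ * t₁ ^ (p ^ (k - 1))) := by
    rw [ht2e, E.mul_t_pow hT, geom_eq_pow, ← hw, add_comm, E.add, mul_assoc]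
  have h6 : E.ι w₁ * t₁ ^ (p ^ (k - 1)) ∈ U₁ ⊓ U₂ := by
    refine ⟨U₁.mul_mem hw1 (U₁.pow_mem ht1 _), ?_⟩
    have h7 : E.ι w₁ * t₁ ^ (p ^ (k - 1)) = (E.ι w₂)⁻¹ * t₂ ^ (p ^ (k - 1)) := by
      rw [h5, inv_mul_cancel_left]
    rw [h7]
    exact U₂.mul_mem (U₂.inv_mem hw2) (U₂.pow_mem ht2 _)
  rw [h12, mem_bot] at h6
  have h7 : t₁ ^ (p ^ (k - 1)) ∈ A := by
    rw [eq_inv_of_mul_eq_one_right h6]
    exact A.inv_mem (E.mem_A w₁)
  have h8 : orderOf (t₁ : G ⧸ A) ∣ p ^ (k - 1) := by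
    apply orderOf_dvd_of_pow_eq_one
    rw [← QuotientGroup.mk_pow]
    exact (QuotientGroup.eq_one_iff _).2 h7
  rw [hord] at h8
  have h9 := (Nat.pow_dvd_pow_iff_le_right hp.one_lt).1 h8
  omega

/-- Of two components one generates the factor group. -/
theorem one_generates {G : Type u} [Group G] [Finite G] {A : Subgroup G} [A.Normal] {p k : ℕ}
    (hp : p.Prime) (hk0 : k ≠ 0) (hidx : A.index = p ^ k) (g : G)
    (hg : ∀ y : G ⧸ A, y ∈ zpowers (g : G ⧸ A)) {s : ℕ} (hs : Nat.card G = s ^ 2)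
    (U : Fin 3 → Subgroup G) (hU : Pool.Agent.Lib_MP_53dcbc_co.IsPCP s U) {i j : Fin 3}
    (hij : i ≠ j) (h1 : U i ⊔ A ≠ ⊤) (h2 : U j ⊔ A ≠ ⊤) : False := by
  obtain ⟨a, ha, b, hb, hab⟩ := hU.exists_mul hs hij g
  have hcard : Nat.card (G ⧸ A) = p ^ k := hidx
  have hord : orderOf (g : G ⧸ A) = p ^ k := by
    rw [orderOf_eq_card_of_forall_mem_zpowers hg, hcard]
  have key : ∀ (l : Fin 3), U l ⊔ A ≠ ⊤ → ∀ c ∈ U l, (c : G ⧸ A) ^ (p ^ (k - 1)) = 1 := by
    intro l hl c hc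
    have h3 : orderOf (c : G ⧸ A) ∣ p ^ k := by
      rw [← hcard]
      exact orderOf_dvd_natCard _
    obtain ⟨m, hm, hm'⟩ := (Nat.dvd_prime_pow hp).1 h3
    have h4 : m ≠ k := by
      rintro rfl
      apply hl
      rw [eq_top_iff]
      intro y _
      have h5 : (zpowers (c : G ⧸ A)) = ⊤ := by
        apply Subgroup.eq_top_of_card_eq
        rw [Nat.card_zpowers, hm', hcard]
      have h6 : (y : G ⧸ A) ∈ zpowers (c : G ⧸ A) := by rw [h5]; trivial
      obtain ⟨n, hn⟩ := mem_zpowers_iff.1 h6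
      have h7 : (c ^ n)⁻¹ * y ∈ A := by
        apply QuotientGroup.eq.1
        rw [QuotientGroup.mk_zpow, hn]
      have h8 := Subgroup.mul_mem_sup ((U l).zpow_mem hc n) h7
      rwa [mul_inv_cancel_left] at h8
    apply orderOf_dvd_iff_pow_eq_one.1
    rw [hm']
    exact pow_dvd_pow p (by omega)
  have hcomm : Commute (a : G ⧸ A) (b : G ⧸ A) := by
    obtain ⟨m, hm⟩ := mem_zpowers_iff.1 (hg a)
    obtain ⟨n, hn⟩ := mem_zpowers_iff.1 (hg b)
    rw [← hm, ← hn]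
    exact (Commute.refl _).zpow_zpow m n
  have h3 : (g : G ⧸ A) ^ (p ^ (k - 1)) = 1 := by
    rw [hab, QuotientGroup.mk_mul, hcomm.mul_pow, key i h1 a ha, key j h2 b hb, one_mul]
  have h4 := orderOf_dvd_of_pow_eq_one h3
  rw [hord] at h4
  have h9 := (Nat.pow_dvd_pow_iff_le_right hp.one_lt).1 h4
  omega

theorem lt_pow_aux {q k : ℕ} (hq : 2 ≤ q) (hk : 2 ≤ k) (h4 : q ^ k ≠ 4) : k < q ^ (k - 1) := by
  obtain ⟨m, rfl⟩ : ∃ m, k = m + 2 := ⟨k - 2, by omega⟩
  have h1 : m + 2 - 1 = m + 1 := by omega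
  rw [h1]
  rcases Nat.lt_or_ge q 3 with h | h
  · have hq2 : q = 2 := by omega
    subst hq2
    have hm : m ≠ 0 := by
      rintro rfl
      exact h4 (by norm_num)
    obtain ⟨n, rfl⟩ : ∃ n, m = n + 1 := ⟨m - 1, by omega⟩
    have h2 : n + 1 ≤ 2 ^ n := Nat.lt_two_pow_self
    have h3 : 2 ^ (n + 1 + 1) = 4 * 2 ^ n := by ring
    omega
  · have h2 : m + 1 ≤ 3 ^ m := by
      have : m < 3 ^ m := Nat.lt_pow_self (by norm_num)
      omega
    have h3 : 3 ^ (m + 1) ≤ q ^ (m + 1) := Nat.pow_le_pow_left h _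
    have h4 : 3 ^ (m + 1) = 3 * 3 ^ m := by ring
    omega

end Pool.Agent.PCPem
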