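import Pool.Agent.Lib_MP_53dcbc_em.Emb

/-!
# Groups with an elementary abelian subgroup of prime index: construction of three subgroups
-/

set_option autoImplicit false

namespace Pool.Agent.PCPem

open Finset Module
open scoped commutatorElement

theorem exists_zpow_mul_inv_mem {G : Type*} [Group G] {A : Subgroup G} [A.Normal] {p : ℕ}
    [Fact p.Prime] (hidx : A.index = p) {y : G} (hy : y ∉ A) (t : G) :
    ∃ k : ℤ, y ^ k * t⁻¹ ∈ A := by
  have h := mem_zpowers_of_prime_card (G := G ⧸ A) (p := p) hidx (g := (y : G ⧸ A))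
    (g' := (t : G ⧸ A)) (fun h => hy ((QuotientGroup.eq_one_iff _).1 h))
  obtain ⟨k, hk⟩ := Subgroup.mem_zpowers_iff.1 h
  refine ⟨k, ?_⟩
  rw [← QuotientGroup.eq_one_iff, QuotientGroup.mk_mul, QuotientGroup.mk_zpow, hk,
    QuotientGroup.mk_inv, mul_inv_cancel]

section Card

variable {p : ℕ} [Fact p.Prime] {V : Type*} [AddCommGroup V] [Module (ZMod p) V] [Finite V]

theorem card_eq (W : Submodule (ZMod p) V) : Nat.card W = p ^ finrank (ZMod p) W := by
  have := Module.natCard_eq_pow_finrank (K := ZMod p) (V := W)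
  rwa [Nat.card_zmod] at this

variable (p) (V) in
theorem card_eq' : Nat.card V = p ^ finrank (ZMod p) V := by
  have := Module.natCard_eq_pow_finrank (K := ZMod p) (V := V)
  rwa [Nat.card_zmod] at this

theorem finrank_sup_three (B₁ B₂ : Submodule (ZMod p) V) (hd : ∀ v, v ∈ B₁ → v ∈ B₂ → v = 0)
    (e : V) (he : e ∉ B₁ ⊔ B₂) :
    finrank (ZMod p) (B₁ ⊔ B₂ ⊔ (ZMod p) ∙ e : Submodule (ZMod p) V) =
      finrank (ZMod p) B₁ + finrank (ZMod p) B₂ + 1 := by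
  have h1 := Submodule.finrank_sup_add_finrank_inf_eq B₁ B₂
  have h2 := Submodule.finrank_sup_add_finrank_inf_eq (B₁ ⊔ B₂) ((ZMod p) ∙ e)
  have h3 : B₁ ⊓ B₂ = ⊥ := by
    rw [eq_bot_iff]
    rintro v ⟨a, b⟩
    exact hd v a b
  have h4 : (B₁ ⊔ B₂) ⊓ ((ZMod p) ∙ e) = ⊥ := by
    rw [eq_bot_iff]
    rintro v ⟨a, b⟩
    obtain ⟨c, rfl⟩ := Submodule.mem_span_singleton.1 b
    by_cases hc : c = 0
    · simp [hc]
    · exfalso
      apply he
      have := (B₁ ⊔ B₂).smul_mem c⁻¹ a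
      rwa [smul_smul, inv_mul_cancel₀ hc, one_smul] at this
  have he0 : e ≠ 0 := by
    rintro rfl
    exact he (zero_mem _)
  rw [h3, finrank_bot, add_zero] at h1
  rw [h4, finrank_bot, add_zero, finrank_span_singleton he0, h1] at h2
  exact h2

theorem card_mul_card (M N : Submodule (ZMod p) V) (hd : ∀ v, v ∈ M → v ∈ N → v = 0)
    (htop : M ⊔ N = ⊤) : Nat.card M * Nat.card N = Nat.card V := by
  have h1 := Submodule.finrank_sup_add_finrank_inf_eq M N
  have h3 : M ⊓ N = ⊥ := by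
    rw [eq_bot_iff]
    rintro v ⟨a, b⟩
    exact hd v a b
  rw [h3, htop, finrank_bot, add_zero, finrank_top] at h1
  rw [card_eq, card_eq, card_eq' p V, h1, pow_add]

end Card

variable {p : ℕ} {V G : Type*} [AddCommGroup V] [Module (ZMod p) V] [Group G] {A : Subgroup G}

/-- Two subgroups which are not contained in `A` are enough. -/
theorem three_of_two [Finite G] [Fact p.Prime] (E : Emb p V A) [A.Normal] (hidx : A.index = p)
    {s : ℕ} (hs : Nat.card G = s ^ 2) {t : G} (ht : t ∉ A) {T : Module.End (ZMod p) V}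
    (hT : ∀ v, E.ι (T v) = t * E.ι v * t⁻¹)
    (B₁ B₂ : Submodule (ZMod p) V) (h1 : ∀ v ∈ B₁, (T - 1) v ∈ B₁) (h2 : ∀ v ∈ B₂, (T - 1) v ∈ B₂)
    (hd : ∀ v, v ∈ B₁ → v ∈ B₂ → v = 0) (e : V) (he : e ∉ B₁ ⊔ B₂)
    (htop : B₁ ⊔ B₂ ⊔ (ZMod p) ∙ e = ⊤) (hc1 : Nat.card B₁ * p = s) (ht1 : t ^ p ∈ E.gp B₁)
    (ht2 : (E.ι e * t) ^ p ∈ E.gp B₂) :
    ∃ U : Fin 3 → Subgroup G, (∀ i, Nat.card (U i) = s) ∧ (∀ i j, i ≠ j → U i ⊓ U j = ⊥) ∧
      U 2 ≤ A := by
  have hp : p.Prime := Fact.out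
  have hfin : Finite V := Finite.of_injective E.ι E.inj
  have hcA : Nat.card V * p = s ^ 2 := by
    rw [← E.card_A, ← hidx, Subgroup.card_mul_index, hs]
  have hcB : Nat.card B₁ * Nat.card B₂ * p = Nat.card V := by
    have h3 := finrank_sup_three B₁ B₂ hd e he
    rw [htop, finrank_top] at h3
    rw [card_eq B₁, card_eq B₂, card_eq' p V, h3, pow_succ, pow_add]
  have hs0 : 0 < s := by
    rcases Nat.eq_zero_or_pos s with h | h
    · exfalso
      rw [h] at hs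
      exact Nat.card_pos.ne' hs
    · exact h
  have hc2 : Nat.card B₂ * p = s := by
    rw [← hcB] at hcA
    have h4 : s * (Nat.card B₂ * p) = s * s := by
      rw [← pow_two, ← hcA]
      nth_rewrite 1 [← hc1]
      ring
    exact Nat.eq_of_mul_eq_mul_left hs0 h4
  have hB : Nat.card B₁ = Nat.card B₂ := Nat.eq_of_mul_eq_mul_right hp.pos (hc1.trans hc2.symm)
  have hfr : finrank (ZMod p) B₂ = finrank (ZMod p) B₁ := by
    rw [card_eq, card_eq] at hB
    exact (Nat.pow_right_injective hp.two_le hB).symm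
  let φ : B₂ ≃ₗ[ZMod p] B₁ := LinearEquiv.ofFinrankEq _ _ hfr
  obtain ⟨hC1, hCtop, heC, hC2⟩ := graph_compl B₁ B₂ hd e e he htop (by simp)
    (φ : B₂ →ₗ[ZMod p] B₁)
  set C := LinearMap.range (B₂.subtype - B₁.subtype ∘ₗ (φ : B₂ →ₗ[ZMod p] B₁)) ⊔ (ZMod p) ∙ e
  have hC2' := hC2 φ.injective
  have hcC : Nat.card C = s := by
    have h5 := card_mul_card B₁ C hC1 hCtop
    have h6 : s * Nat.card C = s * s := by
      rw [← pow_two, ← hcA, ← h5, ← hc1]
      ring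
    exact Nat.eq_of_mul_eq_mul_left hs0 h6
  have het : E.ι e * t ∉ A := fun h => ht ((A.mul_mem_cancel_left (E.mem_A e)).1 h)
  have hn1 : (E.gp B₁).Normal := E.normal_of_conj hp hidx ht (E.gp_le _) (E.conj_gp hT h1)
  have hn2 : (E.gp B₂).Normal := E.normal_of_conj hp hidx ht (E.gp_le _) (E.conj_gp hT h2)
  obtain ⟨hU1, hU1c⟩ := sup_zpowers hp hidx (E.gp_le B₁) ht ht1
  obtain ⟨hU2, hU2c⟩ := sup_zpowers hp hidx (E.gp_le B₂) het ht2
  set U₁ := E.gp B₁ ⊔ Subgroup.zpowers t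
  set U₂ := E.gp B₂ ⊔ Subgroup.zpowers (E.ι e * t)
  rw [E.card_gp, mul_comm, hc1] at hU1c
  rw [E.card_gp, mul_comm, hc2] at hU2c
  have h12 : U₁ ⊓ U₂ = ⊥ := by
    rw [eq_bot_iff]
    rintro y ⟨hy1, hy2⟩
    by_cases hyA : y ∈ A
    · have h5 : y ∈ E.gp B₁ ⊓ E.gp B₂ := by
        rw [← hU1, ← hU2]
        exact ⟨⟨hy1, hyA⟩, ⟨hy2, hyA⟩⟩
      rwa [E.gp_inf_eq_bot hd] at h5
    · exfalso
      obtain ⟨k, hk⟩ := exists_zpow_mul_inv_mem hidx hyA t
      have h5 : y ^ k * t⁻¹ ∈ E.gp B₁ := by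
        rw [← hU1]
        exact ⟨U₁.mul_mem (U₁.zpow_mem hy1 k) (U₁.inv_mem
          ((le_sup_right : Subgroup.zpowers t ≤ _) (Subgroup.mem_zpowers t))), hk⟩
      have h6 : y ^ k * (E.ι e * t)⁻¹ ∈ E.gp B₂ := by
        rw [← hU2]
        refine ⟨U₂.mul_mem (U₂.zpow_mem hy2 k) (U₂.inv_mem
          ((le_sup_right : Subgroup.zpowers (E.ι e * t) ≤ _) (Subgroup.mem_zpowers _))), ?_⟩
        rw [mul_inv_rev, ← mul_assoc]
        exact A.mul_mem hk (A.inv_mem (E.mem_A e))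
      obtain ⟨b₁, hb1, hb1'⟩ := h5
      obtain ⟨b₂, hb2, hb2'⟩ := h6
      apply he
      have h7 : E.ι b₂ = E.ι (b₁ - e) := by
        rw [E.sub, hb1', hb2', mul_inv_rev, mul_assoc]
      have h8 : e = b₁ + -b₂ := by
        rw [E.inj h7]
        abel
      rw [h8]
      exact Submodule.add_mem_sup hb1 (neg_mem hb2)
  have h13 : U₁ ⊓ E.gp C = ⊥ := by
    have : U₁ ⊓ E.gp C = E.gp B₁ ⊓ E.gp C := by
      rw [← hU1, inf_assoc, inf_eq_right.2 (E.gp_le C)]
    rw [this]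
    exact E.gp_inf_eq_bot hC1
  have h23 : U₂ ⊓ E.gp C = ⊥ := by
    have : U₂ ⊓ E.gp C = E.gp B₂ ⊓ E.gp C := by
      rw [← hU2, inf_assoc, inf_eq_right.2 (E.gp_le C)]
    rw [this]
    exact E.gp_inf_eq_bot hC2'
  refine ⟨![U₁, U₂, E.gp C], ?_, ?_, E.gp_le C⟩
  · intro i
    fin_cases i
    · exact hU1c
    · exact hU2c
    · exact (E.card_gp C).trans hcC
  · intro i j hij
    fin_cases i <;> fin_cases j
    · exact absurd rfl hij
    · exact h12
    · exact h13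
    · exact (inf_comm _ _).trans h12
    · exact absurd rfl hij
    · exact h23
    · exact (inf_comm _ _).trans h13
    · exact (inf_comm _ _).trans h23
    · exact absurd rfl hij

end Pool.Agent.PCPem
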