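import Pool.Agent.Lib_MP_53dcbc_em.Suff

/-!
# Groups with an elementary abelian subgroup of prime index: the condition is sufficient
-/

set_option autoImplicit false

namespace Pool.Agent.PCPem

open Finset Module
open scoped commutatorElement

section Linear

variable {K V : Type*} [Field K] [AddCommGroup V] [Module K V]

/-- A hyperplane of a summand, twisted by a map to the other summand. -/
theorem twist (M N' : Submodule K V) (hd : ∀ v, v ∈ M → v ∈ N' → v = 0) (htop : M ⊔ N' = ⊤)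
    (n : V) (hn : n ∈ N') (f : V →ₗ[K] K) (hf : f n ≠ 0) (N₀ : Submodule K V)
    (hN₀ : N₀ = N' ⊓ LinearMap.ker f) (φ : N₀ →ₗ[K] M) (g : M) :
    let B₂ := LinearMap.range (N₀.subtype + M.subtype ∘ₗ φ)
    (∀ v, v ∈ M → v ∈ B₂ → v = 0) ∧ n + g ∉ M ⊔ B₂ ∧ M ⊔ B₂ ⊔ K ∙ (n + g) = ⊤ := by
  intro B₂
  have hN : ∀ b : N₀, (b : V) ∈ N' ∧ f b = 0 := by
    intro b
    have h : ∀ v ∈ N₀, v ∈ N' ∧ f v = 0 := by
      rw [hN₀]
      exact fun v hv => hv
    exact h b b.2
  have hB : ∀ b : N₀, (b : V) + φ b ∈ B₂ := fun b => ⟨b, rfl⟩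
  refine ⟨?_, ?_, ?_⟩
  · rintro v hv ⟨b, rfl⟩
    change (b : V) + φ b ∈ M at hv
    have h1 : (b : V) ∈ M := by
      have := sub_mem hv (φ b).2
      rwa [add_sub_cancel_right] at this
    have h2 : b = 0 := Subtype.ext (hd _ h1 (hN b).1)
    simp [h2]
  · intro h
    obtain ⟨m, hm, v, ⟨b, hb⟩, hv⟩ := Submodule.mem_sup.1 h
    change (b : V) + φ b = v at hb
    have h1 : n - b ∈ M := by
      have : n - b = m + φ b - g := by
        rw [eq_sub_iff_add_eq, ← sub_eq_zero]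
        have := sub_eq_zero.2 hv
        rw [← hb] at this
        rw [← neg_eq_zero, ← this]
        abel
      rw [this]
      exact sub_mem (add_mem hm (φ b).2) g.2
    have h2 := hd _ h1 (sub_mem hn (hN b).1)
    apply hf
    rw [sub_eq_zero.1 h2]
    exact (hN b).2
  · rw [eq_top_iff, ← htop]
    have hM : M ≤ M ⊔ B₂ ⊔ K ∙ (n + g) := le_sup_of_le_left le_sup_left
    refine sup_le hM ?_
    intro v hv
    have hn' : n ∈ M ⊔ B₂ ⊔ K ∙ (n + g) := by
      have h1 : n + g ∈ M ⊔ B₂ ⊔ K ∙ (n + g) :=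
        (le_sup_right : K ∙ (n + g) ≤ _) (Submodule.mem_span_singleton_self _)
      have := sub_mem h1 (hM g.2)
      rwa [add_sub_cancel_right] at this
    have hb : v - (f v / f n) • n ∈ N₀ := by
      rw [hN₀]
      refine ⟨sub_mem hv (N'.smul_mem _ hn), ?_⟩
      change f (v - (f v / f n) • n) = 0
      rw [map_sub, map_smul, smul_eq_mul, div_mul_cancel₀ _ hf, sub_self]
    have h1 := (le_sup_of_le_left le_sup_right : B₂ ≤ M ⊔ B₂ ⊔ K ∙ (n + g)) (hB ⟨_, hb⟩)
    have h2 := sub_mem h1 (hM (φ ⟨_, hb⟩).2)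
    rw [add_sub_cancel_right] at h2
    have h3 := add_mem h2 (Submodule.smul_mem _ (f v / f n) hn')
    rwa [sub_add_cancel] at h3

theorem suff_linear (x : Module.End K V) (q : ℕ) (hx : x ^ (q + 2) = 0) (M N' : Submodule K V)
    (hM : ∀ v ∈ M, x v ∈ M) (hN : ∀ v ∈ N', x v ∈ N') (hd : ∀ v, v ∈ M → v ∈ N' → v = 0)
    (htop : M ⊔ N' = ⊤) (c : V) (hxc : x c = 0)
    (hcase : (c = 0 ∧ N' ≠ ⊥) ∨ ((∃ m ∈ M, c = (x ^ q) m) ∧ ∃ n ∈ N', (x ^ (q + 1)) n ≠ 0)) :
    ∃ (B₂ : Submodule K V) (e : V), (∀ v ∈ B₂, x v ∈ B₂) ∧ (∀ v, v ∈ M → v ∈ B₂ → v = 0) ∧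
      e ∉ M ⊔ B₂ ∧ M ⊔ B₂ ⊔ K ∙ e = ⊤ ∧ (x ^ (q + 1)) e + c ∈ B₂ := by
  rcases hcase with ⟨hc, hN0⟩ | ⟨⟨m, hm, hc⟩, n, hn, hxn⟩
  · obtain ⟨n, hn, hn'⟩ : ∃ n ∈ N', n ∉ N'.map x := by
      by_contra hcon
      push Not at hcon
      apply hN0
      have h1 : ∀ k, N' ≤ N'.map (x ^ k) := by
        intro k
        induction k with
        | zero => intro v hv; exact ⟨v, hv, by simp⟩
        | succ k ih =>
          intro v hv
          obtain ⟨w, hw, rfl⟩ := ih hv
          obtain ⟨u, hu, rfl⟩ := hcon w hw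
          exact ⟨u, hu, by rw [pow_succ, Module.End.mul_apply]⟩
      have h2 := h1 (q + 2)
      rw [hx, Submodule.map_zero] at h2
      exact le_bot_iff.1 h2
    obtain ⟨f, hf, hker⟩ := Submodule.exists_le_ker_of_notMem (K := K) (p := N'.map x) (v := n) hn'
    obtain ⟨h1, h2, h3⟩ := twist M N' hd htop n hn f hf _ rfl 0 0
    refine ⟨_, _, ?_, h1, h2, h3, ?_⟩
    · rintro _ ⟨b, rfl⟩
      have hb : x b ∈ N' ⊓ LinearMap.ker f :=
        ⟨hN _ b.2.1, hker ⟨b, b.2.1, rfl⟩⟩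
      exact ⟨⟨x b, hb⟩, by simp⟩
    · have hb : (x ^ (q + 1)) n ∈ N' ⊓ LinearMap.ker f := by
        have h4 : ∀ k, (x ^ k) n ∈ N' := by
          intro k
          induction k with
          | zero => simpa using hn
          | succ k ih =>
            rw [pow_succ', Module.End.mul_apply]
            exact hN _ ih
        rw [pow_succ', Module.End.mul_apply]
        exact ⟨hN _ (h4 q), hker ⟨_, h4 q, rfl⟩⟩
      exact ⟨⟨_, hb⟩, by simp [hc]⟩
  · set W : Submodule K V := N' ⊓ LinearMap.ker (x ^ (q + 1)) with hW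
    have hnW : n ∉ W := fun h => hxn h.2
    obtain ⟨f, hf, hker⟩ := Submodule.exists_le_ker_of_notMem (K := K) (p := W) (v := n) hnW
    set N₀ : Submodule K V := N' ⊓ LinearMap.ker f with hN₀
    have hxW : ∀ v ∈ N', x v ∈ W := by
      intro v hv
      refine ⟨hN v hv, ?_⟩
      change (x ^ (q + 1)) (x v) = 0
      rw [← Module.End.mul_apply, ← pow_succ, hx, LinearMap.zero_apply]
    have hWN : W ≤ N₀ := fun v hv => ⟨hv.1, hker hv⟩
    have hxN₀ : ∀ v ∈ N₀, x v ∈ N₀ := fun v hv => hWN (hxW v hv.1)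
    have hpow : ∀ (B : Submodule K V) (hx : ∀ v ∈ B, x v ∈ B) (n : ℕ) (b : B),
        (((x.restrict hx) ^ n) b : V) = (x ^ n) b := by
      intro B hx n b
      induction n generalizing b with
      | zero => simp
      | succ n ih =>
        rw [pow_succ, Module.End.mul_apply, ih, pow_succ, Module.End.mul_apply]
        rfl
    obtain ⟨φ, g, hφ, hg⟩ := exists_hom (x.restrict hxN₀) (x.restrict hM) q
      ⟨x n, hWN (hxW n hn)⟩ (by
        intro b hb
        have h1 := congrArg Subtype.val hb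
        rw [hpow, hpow] at h1
        have h2 : (b : V) - n ∈ W := by
          refine ⟨sub_mem b.2.1 hn, ?_⟩
          change (x ^ (q + 1)) ((b : V) - n) = 0
          rw [map_sub, h1, sub_eq_zero, ← Module.End.mul_apply, ← pow_succ]
        apply hf
        have h3 : f ((b : V) - n) = 0 := hker h2
        have h4 : f b = 0 := b.2.2
        rw [map_sub, h4, zero_sub, neg_eq_zero] at h3
        exact h3) ⟨m, hm⟩ (by
        apply Subtype.ext
        rw [hpow, pow_succ', Module.End.mul_apply]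
        change x ((x ^ q) m) = 0
        rw [← hc, hxc])
    obtain ⟨h1, h2, h3⟩ := twist M N' hd htop n hn f hf _ hN₀ φ g
    have hφ' : ∀ b : N₀, x (φ b) = φ ⟨x b, hxN₀ b b.2⟩ := fun b =>
      (congrArg Subtype.val (hφ b)).symm
    refine ⟨_, _, ?_, h1, h2, h3, ?_⟩
    · rintro _ ⟨b, rfl⟩
      exact ⟨⟨x b, hxN₀ b b.2⟩, by simp [hφ']⟩
    · have hg' : (φ ⟨x n, hWN (hxW n hn)⟩ : V) = m + x g := by
        have := congrArg Subtype.val hg
        simpa [LinearMap.restrict_apply] using this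
      have key : ∀ k, ∀ b : N₀, (x ^ k) (φ b : V) =
          φ (((x.restrict hxN₀) ^ k) b) := by
        intro k
        induction k with
        | zero => intro b; simp
        | succ k ih =>
          intro b
          rw [pow_succ, Module.End.mul_apply, hφ', ih, pow_succ, Module.End.mul_apply]
          rfl
      refine ⟨((x.restrict hxN₀) ^ q) ⟨x n, hWN (hxW n hn)⟩, ?_⟩
      change ((((x.restrict hxN₀) ^ q) ⟨x n, hWN (hxW n hn)⟩ : N₀) : V) +
        φ (((x.restrict hxN₀) ^ q) ⟨x n, hWN (hxW n hn)⟩) = _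
      rw [← key, hpow, hg', pow_succ, Module.End.mul_apply, map_add, map_add, map_add, ← hc]
      abel

end Linear

variable {p : ℕ} {V G : Type*} [AddCommGroup V] [Module (ZMod p) V] [Group G] {A : Subgroup G}

theorem sufficient [Finite G] [Fact p.Prime] (E : Emb p V A) [A.Normal] (hidx : A.index = p)
    {s : ℕ} (hs : Nat.card G = s ^ 2) (M N : Subgroup G) (hM : M.Normal) (hN : N.Normal)
    (hMN : M ⊓ N = ⊥) (hsup : M ⊔ N = A) (hcM : Nat.card M * p = s) (hcN : Nat.card N = s) {t : G}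
    (ht : t ∉ A) (hcase : t ^ p = 1 ∨ ((∃ m ∈ M, t ^ p = (fun y => ⁅t, y⁆)^[p - 2] m) ∧
      ∃ n ∈ N, (fun y => ⁅t, y⁆)^[p - 1] n ≠ 1)) :
    ∃ U : Fin 3 → Subgroup G, (∀ i, Nat.card (U i) = s) ∧ (∀ i j, i ≠ j → U i ⊓ U j = ⊥) ∧
      U 2 ≤ A := by
  have hp : p.Prime := Fact.out
  obtain ⟨q, hq⟩ : ∃ q, p = q + 2 := ⟨p - 2, by have := hp.two_le; omega⟩
  have hMA : M ≤ A := hsup ▸ le_sup_left
  have hNA : N ≤ A := hsup ▸ le_sup_right
  obtain ⟨T, hT⟩ := E.exists_T t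
  have htp : t ^ p ∈ A := by
    have := Subgroup.pow_index_mem A t
    rwa [hidx] at this
  obtain ⟨c, hc⟩ := (E.mem _).1 htp
  have hstab : ∀ H : Subgroup G, H.Normal → ∀ v ∈ E.sm H, (T - 1) v ∈ E.sm H := by
    intro H hH v hv
    rw [E.mem_sm] at hv ⊢
    rw [← E.comm_t hT, commutatorElement_def]
    exact H.mul_mem (hH.conj_mem _ hv t) (H.inv_mem hv)
  have hd : ∀ v, v ∈ E.sm M → v ∈ E.sm N → v = 0 := by
    intro v h1 h2
    apply E.eq_one
    have : E.ι v ∈ M ⊓ N := ⟨h1, h2⟩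
    rwa [hMN, Subgroup.mem_bot] at this
  have htop : E.sm M ⊔ E.sm N = ⊤ := by
    rw [eq_top_iff]
    intro v _
    have h1 : E.ι v ∈ ((M ⊔ N : Subgroup G) : Set G) := by
      rw [hsup]
      exact E.mem_A v
    rw [Subgroup.normal_mul] at h1
    obtain ⟨a, ha, b, hb, hab⟩ := h1
    obtain ⟨a, rfl⟩ := (E.mem a).1 (hMA ha)
    obtain ⟨b, rfl⟩ := (E.mem b).1 (hNA hb)
    have : v = a + b := by
      apply E.inj
      rw [E.add]
      exact hab.symm
    rw [this]
    exact Submodule.add_mem_sup ha hb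
  have hxc : (T - 1) c = 0 := by
    rw [LinearMap.sub_apply, Module.End.one_apply, sub_eq_zero]
    apply E.inj
    rw [hT, hc, ← pow_succ', pow_succ, mul_inv_cancel_right]
  have hxp : (T - 1) ^ (q + 2) = 0 := by
    rw [← hq]
    exact E.x_pow_p hT htp
  have hcardM : Nat.card (E.sm M) = Nat.card M := by
    rw [← E.card_gp, E.gp_sm, inf_eq_left.2 hMA]
  have hcardN : Nat.card (E.sm N) = Nat.card N := by
    rw [← E.card_gp, E.gp_sm, inf_eq_left.2 hNA]
  have hpow : ∀ k : ℕ, ∀ v ∈ E.sm M, ((T - 1) ^ k) v ∈ E.sm M := by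
    intro k
    induction k with
    | zero => intro v hv; simpa using hv
    | succ k ih =>
      intro v hv
      rw [pow_succ, Module.End.mul_apply]
      exact ih _ (hstab M hM v hv)
  have hcase' : (c = 0 ∧ E.sm N ≠ ⊥) ∨ ((∃ m ∈ E.sm M, c = ((T - 1) ^ q) m) ∧
      ∃ n ∈ E.sm N, ((T - 1) ^ (q + 1)) n ≠ 0) := by
    rcases hcase with h | ⟨⟨m, hm, hm'⟩, n, hn, hn'⟩
    · left
      refine ⟨E.eq_one (hc.trans h), ?_⟩
      intro h0
      rw [h0] at hcardN
      have h1 : Nat.card (⊥ : Submodule (ZMod p) V) = 1 := by simp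
      rw [h1, hcN] at hcardN
      have h2 := Nat.card_pos (α := M)
      have h3 : p ≤ Nat.card M * p := Nat.le_mul_of_pos_left p h2
      have h4 := hp.two_le
      omega
    · right
      obtain ⟨m, rfl⟩ := (E.mem m).1 (hMA hm)
      obtain ⟨n, rfl⟩ := (E.mem n).1 (hNA hn)
      refine ⟨⟨m, hm, ?_⟩, n, hn, ?_⟩
      · have hq2 : p - 2 = q := by omega
        apply E.inj
        rw [hc, hm', E.iter_comm hT, hq2]
      · intro h0
        apply hn'
        have : p - 1 = q + 1 := by omega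
        rw [E.iter_comm hT, this, h0, E.zero]
  obtain ⟨B₂, e, h1, h2, h3, h4, h5⟩ := suff_linear (T - 1) q hxp (E.sm M) (E.sm N) (hstab M hM)
    (hstab N hN) hd htop c hxc hcase'
  refine three_of_two E hidx hs ht hT (E.sm M) B₂ (hstab M hM) h1 h2 e h3 h4
    (by rw [hcardM, hcM]) ?_ ?_
  · rw [← hc, E.ι_mem_gp]
    rcases hcase' with h | ⟨⟨m, hm, hm'⟩, -⟩
    · rw [h.1]
      exact zero_mem _
    · rw [hm']
      exact hpow q m hm
  · rw [E.mul_t_pow_p hT, ← hc, ← E.add, E.ι_mem_gp]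
    have : p - 1 = q + 1 := by omega
    rw [this]
    exact h5

end Pool.Agent.PCPem
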